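import Mathlib

/-!
# The number of Dress: definitions and combinatorial statements
-/

set_option autoImplicit false
set_option linter.unusedSectionVars false

namespace Pool.Agent.N423.HB

/-- `X` is the vertex set of an inclusion-maximal clique with at least five vertices. -/
def MaxClique5 {V : Type} (G : SimpleGraph V) (X : Finset V) : Prop :=
  5 ≤ X.card ∧ G.IsClique (X : Set V) ∧ ∀ Y : Finset V, G.IsClique (Y : Set V) → X ⊆ Y → Y = X

open Classical in
/-- the number of maximal cliques with at least five vertices which contain both ends of `e` -/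
noncomputable def degX {V : Type} [Fintype V] (G : SimpleGraph V) (e : Sym2 V) : ℕ :=
  (Finset.univ.filter fun X : Finset V => MaxClique5 G X ∧ ∀ w ∈ e, w ∈ X).card

open Classical in
/-- the number `cval(G)` of Dress -/
noncomputable def cval {V : Type} [Fintype V] (G : SimpleGraph V) : ℤ :=
  (∑ X ∈ Finset.univ.filter (fun X : Finset V => MaxClique5 G X), (3 * (X.card : ℤ) - 6)) +
    ((G.edgeFinset.filter fun e => degX G e = 0).card : ℤ) -
    ∑ e ∈ G.edgeFinset, if 2 ≤ degX G e then (degX G e : ℤ) - 1 else 0

open Classical in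
/-- the maximal cliques with at least five vertices -/
noncomputable def mc5 {V : Type} [Fintype V] (G : SimpleGraph V) : Finset (Finset V) :=
  Finset.univ.filter fun X : Finset V => MaxClique5 G X

/-- the sum of the nullities of the maximal cliques -/
noncomputable def nul {V : Type} [Fintype V] (G : SimpleGraph V) : ℕ :=
  ∑ X ∈ mc5 G, (X.card - 3).choose 2

/-- `cval` and `nul` -/
def S_CVA : Prop := ∀ (V : Type) [Fintype V] (G : SimpleGraph V),
  cval G + (nul G : ℤ) = (G.edgeSet.ncard : ℤ)

/-- `nul` when a vertex is removed -/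
def S_STP : Prop := ∀ (V : Type) [Fintype V] [DecidableEq V] (G : SimpleGraph V) (v : V)
  (K : Finset V), v ∉ K → (∀ a ∈ K, G.Adj v a) → G.IsClique (K : Set V) →
  (∀ X : Finset V, G.IsClique (X : Set V) → 5 ≤ X.card → v ∈ X → X ⊆ insert v K) →
  (5 ≤ K.card → ∀ Y : Finset V, G.IsClique (Y : Set V) → K ⊆ Y → v ∉ Y → Y = K) →
  nul G = nul (G.deleteIncidenceSet v) + (K.card - 3)

end Pool.Agent.N423.HB
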