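import Mathlib
import Pool.Agent.N423.HB.Stm0

/-!
# Connectivity and graphs with a dominating clique: combinatorial statements
-/

set_option autoImplicit false
set_option linter.unusedSectionVars false

namespace Pool.Agent.N423.HB

open Classical in
/-- the neighbours -/
noncomputable def ng {V : Type} [Fintype V] (G : SimpleGraph V) (v : V) : Finset V :=
  Finset.univ.filter fun z => G.Adj v z

open Classical in
/-- the degree of `v` minus the nullities which get lost with `v` -/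
noncomputable def gg {V : Type} [Fintype V] (G : SimpleGraph V) (v : V) : ℤ :=
  ((ng G v).card : ℤ) - ∑ X ∈ (mc5 G).filter (fun X => v ∈ X), ((X.card : ℤ) - 4)

open Classical in
/-- the double count -/
def S_C1 : Prop := ∀ (V : Type) [Fintype V] (G : SimpleGraph V) (R : Finset V),
  3 ≤ R.card → G.IsClique (R : Set V) → (∀ Y : Finset V, G.IsClique (Y : Set V) → R ⊆ Y → Y = R) →
  0 ≤ ∑ v ∈ Finset.univ.filter (fun v => v ∉ R), (gg G v + ((ng G v ∩ R).card : ℤ) - 6) +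
    ∑ X ∈ (mc5 G).erase R, ((X.card : ℤ) - 4) * (3 - ((X ∩ R).card : ℤ)) →
  3 * Fintype.card V + nul G ≤ G.edgeSet.ncard + 6

open Classical in
/-- the inequality -/
def S_C2 : Prop := ∀ (V : Type) [Fintype V] (G : SimpleGraph V) (R : Finset V),
  3 ≤ R.card → G.IsClique (R : Set V) → (∀ Y : Finset V, G.IsClique (Y : Set V) → R ⊆ Y → Y = R) →
  (∀ v, v ∉ R → ∃ r ∈ R, G.Adj v r) →
  (∀ X ∈ mc5 G, X ≠ R → (X ∩ R).card ≤ 2) →
  (∀ v, 7 ≤ (ng G v).card) →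
  (∀ S A B : Finset V, (∀ v, v ∈ S ∨ v ∈ A ∨ v ∈ B) → A.Nonempty → B.Nonempty →
    Disjoint S A → Disjoint S B → Disjoint A B → (∀ a ∈ A, ∀ b ∈ B, ¬ G.Adj a b) → 7 ≤ S.card) →
  (∀ v, v ∉ R → 3 ≤ gg G v) →
  (∀ v, v ∉ R → gg G v = 3 → ∃ X ∈ mc5 G, v ∈ X ∧ ng G v ⊆ X) →
  (∀ v, v ∉ R → gg G v = 4 → ∃ X ∈ mc5 G, v ∈ X ∧ ∃ y, ng G v ⊆ insert y X) →
  0 ≤ ∑ v ∈ Finset.univ.filter (fun v => v ∉ R), (gg G v + ((ng G v ∩ R).card : ℤ) - 6) +
    ∑ X ∈ (mc5 G).erase R, ((X.card : ℤ) - 4) * (3 - ((X ∩ R).card : ℤ))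

open Classical in
/-- the nullities when a vertex is removed -/
def S_C3 : Prop := ∀ (V : Type) [Fintype V] (G : SimpleGraph V) (v : V),
  (∀ X ∈ mc5 G, v ∈ X → 6 ≤ X.card → ∀ Y : Finset V, G.IsClique (Y : Set V) → X.erase v ⊆ Y →
    v ∉ Y → Y = X.erase v) →
  nul G = nul (G.deleteIncidenceSet v) + ∑ X ∈ (mc5 G).filter (fun X => v ∈ X), (X.card - 4)

end Pool.Agent.N423.HB
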