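import Mathlib
import Pool.Agent.N423.HB.StmC

/-!
# Connectivity and graphs with a dominating clique: combinatorial statements without a bound for `R`
-/

set_option autoImplicit false
set_option linter.unusedSectionVars false

namespace Pool.Agent.N423.HB

open Classical in
/-- `S_C1` without the bound for `R` -/
def S_C1x : Prop := ∀ (V : Type) [Fintype V] (G : SimpleGraph V) (R : Finset V),
  G.IsClique (R : Set V) → (∀ Y : Finset V, G.IsClique (Y : Set V) → R ⊆ Y → Y = R) →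
  0 ≤ ∑ v ∈ Finset.univ.filter (fun v => v ∉ R), (gg G v + ((ng G v ∩ R).card : ℤ) - 6) +
    ∑ X ∈ (mc5 G).erase R, ((X.card : ℤ) - 4) * (3 - ((X ∩ R).card : ℤ)) →
  3 * Fintype.card V + nul G ≤ G.edgeSet.ncard + 6

open Classical in
/-- `S_C2` without the bound for `R` -/
def S_C2x : Prop := ∀ (V : Type) [Fintype V] (G : SimpleGraph V) (R : Finset V),
  G.IsClique (R : Set V) → (∀ Y : Finset V, G.IsClique (Y : Set V) → R ⊆ Y → Y = R) →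
  (∀ v, v ∉ R → ∃ r ∈ R, G.Adj v r) →
  (∀ X ∈ mc5 G, X ≠ R → (X ∩ R).card ≤ 2) →
  (∀ v, 7 ≤ (ng G v).card) →
  (∀ S A B : Finset V, (∀ v, v ∈ S ∨ v ∈ A ∨ v ∈ B) → A.Nonempty → B.Nonempty →
    Disjoint S A → Disjoint S B → Disjoint A B → (∀ a ∈ A, ∀ b ∈ B, ¬ G.Adj a b) → 7 ≤ S.card) →
  (∀ v, v ∉ R → 3 ≤ gg G v) →
  (∀ v, v ∉ R → gg G v = 3 → ∃ X ∈ mc5 G, v ∈ X ∧ ng G v ⊆ X) →
  (∀ v, v ∉ R → gg G v = 4 → ∃ X ∈ mc5 G, v ∈ X ∧ ∃ y, ng G v ⊆ insert y X) →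
  0 ≤ ∑ v ∈ Finset.univ.filter (fun v => v ∉ R), (gg G v + ((ng G v ∩ R).card : ℤ) - 6) +
    ∑ X ∈ (mc5 G).erase R, ((X.card : ℤ) - 4) * (3 - ((X ∩ R).card : ℤ))

end Pool.Agent.N423.HB
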