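import Mathlib
import Pool.Agent.N423.HB.StmX

/-!
# The double count (leaf C1 of project H7)
-/

set_option autoImplicit false

namespace Pool.Agent.N423.HB

open Finset

namespace C1xAux

variable {V : Type} [Fintype V] (G : SimpleGraph V)

theorem mem_ng (v z : V) : z ∈ ng G v ↔ G.Adj v z := by
  unfold ng
  simp

theorem handshake : ∑ v, ((ng G v).card : ℤ) = 2 * (G.edgeSet.ncard : ℤ) := by
  classical
  have h1 := G.sum_degrees_eq_twice_card_edges
  have h2 : ∀ v, (ng G v).card = G.degree v := by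
    intro v
    rw [← SimpleGraph.card_neighborFinset_eq_degree]
    congr 1
    ext z
    rw [mem_ng, SimpleGraph.mem_neighborFinset]
  have h3 : G.edgeSet.ncard = G.edgeFinset.card := by
    rw [← SimpleGraph.coe_edgeFinset, Set.ncard_coe_finset]
  rw [h3]
  have h4 : ∑ v, (ng G v).card = 2 * G.edgeFinset.card := by
    rw [← h1]
    exact sum_congr rfl fun v _ => h2 v
  exact_mod_cast h4

theorem choose_cast (m : ℕ) (hm : 5 ≤ m) :
    2 * (((m - 3).choose 2 : ℕ) : ℤ) = ((m : ℤ) - 3) * ((m : ℤ) - 4) := by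
  obtain ⟨k, rfl⟩ : ∃ k, m = k + 5 := ⟨m - 5, by omega⟩
  have h1 : (k + 5 - 3).choose 2 * 2 = (k + 2) * (k + 1) := by
    have e : k + 5 - 3 = k + 2 := by omega
    rw [e, Nat.choose_two_right]
    have h2 : 2 ∣ (k + 2) * (k + 2 - 1) := Nat.even_mul_pred_self (k + 2) |>.two_dvd
    rw [Nat.div_mul_cancel h2]
    rfl
  have h2 : ((((k + 5 - 3).choose 2 : ℕ) : ℤ)) * 2 = ((k : ℤ) + 2) * (k + 1) := by
    exact_mod_cast h1
  rw [mul_comm, h2]
  push_cast
  ring

end C1xAux

open C1xAux in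
theorem c1x : S_C1x := by
  classical
  intro V _ G R hR _ H
  -- degrees
  have hin : ∀ (v : V) (X : Finset V), ((ng G v ∩ X).card : ℤ) = ∑ z ∈ X, if G.Adj v z then 1 else 0 := by
    intro v X
    rw [sum_boole]
    congr 2
    ext z
    rw [mem_inter, mem_filter, mem_ng]
    exact and_comm
  have hdeg : ∀ v, ((ng G v).card : ℤ) =
      ((ng G v ∩ R).card : ℤ) + ((ng G v ∩ univ.filter fun v => v ∉ R).card : ℤ) := by
    intro v
    rw [← Nat.cast_add, ← card_union_of_disjoint]
    · congr 2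
      ext z
      rw [mem_union, mem_inter, mem_inter, mem_filter]
      constructor
      · intro h
        by_cases hz : z ∈ R
        · exact Or.inl ⟨h, hz⟩
        · exact Or.inr ⟨h, mem_univ z, hz⟩
      · rintro (h | h)
        · exact h.1
        · exact h.1
    · rw [disjoint_left]
      intro a ha hb
      exact (mem_filter.1 (mem_inter.1 hb).2).2 (mem_inter.1 ha).2
  have hclq : ∀ v ∈ R, ((ng G v ∩ R).card : ℤ) = R.card - 1 := by
    intro v hv
    have e : ng G v ∩ R = R.erase v := by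
      ext z
      rw [mem_inter, mem_erase, mem_ng]
      constructor
      · rintro ⟨h1, h2⟩
        exact ⟨h1.ne', h2⟩
      · rintro ⟨h1, h2⟩
        exact ⟨hR (mem_coe.2 hv) (mem_coe.2 h2) h1.symm, h2⟩
    rw [e, card_erase_of_mem hv, Nat.cast_sub (card_pos.2 ⟨v, hv⟩)]
    rfl
  have hswap : ∑ v ∈ R, ((ng G v ∩ univ.filter fun v => v ∉ R).card : ℤ) =
      ∑ v ∈ univ.filter (fun v => v ∉ R), ((ng G v ∩ R).card : ℤ) := by
    simp only [hin]
    rw [sum_comm]
    exact sum_congr rfl fun v _ => sum_congr rfl fun z _ => by rw [G.adj_comm]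
  have hE : 2 * (G.edgeSet.ncard : ℤ) =
      ∑ v ∈ univ.filter (fun v => v ∉ R), ((ng G v).card : ℤ) +
      ((R.card : ℤ) * (R.card - 1) +
        ∑ v ∈ univ.filter (fun v => v ∉ R), ((ng G v ∩ R).card : ℤ)) := by
    rw [← handshake G, ← sum_filter_add_sum_filter_not univ (fun v => v ∉ R)]
    congr 1
    have e : (univ.filter fun v => ¬ v ∉ R) = R := by
      ext v
      simp
    rw [e, sum_congr rfl fun v _ => hdeg v, sum_add_distrib, hswap, sum_congr rfl hclq,
      sum_const, nsmul_eq_mul]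
  -- nullities
  have hmc : ∀ X ∈ mc5 G, 5 ≤ X.card := by
    intro X hX
    unfold mc5 at hX
    exact (mem_filter.1 hX).2.1
  have hnul : 2 * (nul G : ℤ) = ∑ X ∈ mc5 G, ((X.card : ℤ) - 3) * ((X.card : ℤ) - 4) := by
    unfold nul
    rw [Nat.cast_sum, mul_sum]
    exact sum_congr rfl fun X hX => choose_cast _ (hmc X hX)
  have hnul2 : 2 * (nul G : ℤ) ≤ ((R.card : ℤ) - 3) * ((R.card : ℤ) - 4) +
      ∑ X ∈ (mc5 G).erase R, ((X.card : ℤ) - 3) * ((X.card : ℤ) - 4) := by
    rw [hnul]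
    by_cases hRm : R ∈ mc5 G
    · exact (add_sum_erase (mc5 G) (fun X => ((X.card : ℤ) - 3) * ((X.card : ℤ) - 4)) hRm).symm.le
    · rw [erase_eq_of_notMem hRm]
      have h4 : 0 ≤ ((R.card : ℤ) - 3) * ((R.card : ℤ) - 4) := by
        rcases lt_or_ge (3 : ℤ) (R.card : ℤ) with h | h
        · exact mul_nonneg (by omega) (by omega)
        · exact mul_nonneg_of_nonpos_of_nonpos (by omega) (by omega)
      linarith
  -- the sum over the cliques through the vertices outside
  have hcl : ∑ v ∈ univ.filter (fun v => v ∉ R), ∑ X ∈ (mc5 G).filter (fun X => v ∈ X),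
      ((X.card : ℤ) - 4) =
      ∑ X ∈ (mc5 G).erase R, ((X.card : ℤ) - ((X ∩ R).card : ℤ)) * ((X.card : ℤ) - 4) := by
    have e1 : ∑ v ∈ univ.filter (fun v => v ∉ R), ∑ X ∈ (mc5 G).filter (fun X => v ∈ X),
        ((X.card : ℤ) - 4) =
        ∑ X ∈ mc5 G, ((X.card : ℤ) - ((X ∩ R).card : ℤ)) * ((X.card : ℤ) - 4) := by
      simp only [sum_filter (s := mc5 G)]
      rw [sum_comm]
      refine sum_congr rfl fun X _ => ?_
      rw [← sum_filter, sum_const, nsmul_eq_mul]
      congr 1
      have e2 : ((univ.filter fun v => v ∉ R).filter fun v => v ∈ X) = X \ R := by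
        ext v
        simp only [mem_filter, mem_univ, true_and, mem_sdiff]
        exact and_comm
      rw [e2]
      have e3 := card_sdiff_add_card_inter X R
      have e4 : ((X \ R).card : ℤ) + ((X ∩ R).card : ℤ) = X.card := by exact_mod_cast e3
      linarith
    rw [e1, sum_erase]
    rw [inter_self, sub_self, zero_mul]
  have hgg : ∑ v ∈ univ.filter (fun v => v ∉ R), (gg G v + ((ng G v ∩ R).card : ℤ) - 6) =
      ∑ v ∈ univ.filter (fun v => v ∉ R), ((ng G v).card : ℤ) -
      ∑ X ∈ (mc5 G).erase R, ((X.card : ℤ) - ((X ∩ R).card : ℤ)) * ((X.card : ℤ) - 4) +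
      ∑ v ∈ univ.filter (fun v => v ∉ R), ((ng G v ∩ R).card : ℤ) -
      6 * ((univ.filter fun v => v ∉ R).card : ℤ) := by
    unfold gg
    rw [sum_sub_distrib, sum_add_distrib, sum_sub_distrib, hcl, sum_const, nsmul_eq_mul]
    ring
  have hS : ∑ X ∈ (mc5 G).erase R, ((X.card : ℤ) - 4) * (3 - ((X ∩ R).card : ℤ)) -
      ∑ X ∈ (mc5 G).erase R, ((X.card : ℤ) - ((X ∩ R).card : ℤ)) * ((X.card : ℤ) - 4) =
      - ∑ X ∈ (mc5 G).erase R, ((X.card : ℤ) - 3) * ((X.card : ℤ) - 4) := by
    rw [← sum_sub_distrib, ← sum_neg_distrib]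
    exact sum_congr rfl fun X _ => by ring
  have hn : ((univ.filter fun v => v ∉ R).card : ℤ) + R.card = Fintype.card V := by
    have e : (univ.filter fun v => v ∉ R) = Rᶜ := by
      ext v
      simp
    rw [e]
    have := card_compl_add_card R
    exact_mod_cast this
  rw [hgg] at H
  have hfin : 3 * (Fintype.card V : ℤ) + nul G ≤ G.edgeSet.ncard + 6 := by
    have e1 : ((R.card : ℤ) - 3) * ((R.card : ℤ) - 4) = (R.card : ℤ) * (R.card - 1) - 6 * R.card + 12 := by
      ring
    linarith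
  exact_mod_cast hfin

end Pool.Agent.N423.HB
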