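import Mathlib
import Pool.Agent.N423.HB.StmC

/-!
# The inequality for graphs with a dominating clique
-/

set_option autoImplicit false
set_option linter.unusedSectionVars false

namespace Pool.Agent.N423.HB

open Classical in
theorem c2_mem_ng {V : Type} [Fintype V] (G : SimpleGraph V) (v z : V) :
    z ∈ ng G v ↔ G.Adj v z := by
  unfold ng
  rw [Finset.mem_filter]
  simp

open Classical in
theorem c2_mem_mc5 {V : Type} [Fintype V] (G : SimpleGraph V) (X : Finset V) :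
    X ∈ mc5 G ↔ MaxClique5 G X := by
  unfold mc5
  rw [Finset.mem_filter]
  simp

open Classical in
/-- the vertices of `X` with a neighbour outside `X` -/
theorem c2_sep {V : Type} [Fintype V] (G : SimpleGraph V) (R X : Finset V)
    (hR : ∀ Y : Finset V, G.IsClique (Y : Set V) → R ⊆ Y → Y = R)
    (hX : X ∈ mc5 G) (hXR : X ≠ R) (h7 : 7 ≤ X.card)
    (hconn : ∀ S A B : Finset V, (∀ v, v ∈ S ∨ v ∈ A ∨ v ∈ B) → A.Nonempty → B.Nonempty →
      Disjoint S A → Disjoint S B → Disjoint A B → (∀ a ∈ A, ∀ b ∈ B, ¬ G.Adj a b) → 7 ≤ S.card) :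
    7 ≤ (X.filter (fun u => ¬ ng G u ⊆ X)).card := by
  have hX' := (c2_mem_mc5 G X).1 hX
  have hw : ∃ w, w ∉ X := by
    by_contra hcon
    push Not at hcon
    exact hXR (hR X hX'.2.1 (fun r _ => hcon r))
  obtain ⟨w, hw⟩ := hw
  by_cases hT : X.filter (fun u => ¬ ng G u ⊆ X) = X
  · rw [hT]
    exact h7
  · refine hconn (X.filter (fun u => ¬ ng G u ⊆ X)) (X \ X.filter (fun u => ¬ ng G u ⊆ X)) (Xᶜ)
      ?_ ?_ ?_ ?_ ?_ ?_ ?_
    · intro v
      by_cases h1 : v ∈ X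
      · by_cases h2 : v ∈ X.filter (fun u => ¬ ng G u ⊆ X)
        · exact Or.inl h2
        · exact Or.inr (Or.inl (Finset.mem_sdiff.2 ⟨h1, h2⟩))
      · exact Or.inr (Or.inr (Finset.mem_compl.2 h1))
    · rw [Finset.nonempty_iff_ne_empty]
      intro h1
      rw [Finset.sdiff_eq_empty_iff_subset] at h1
      exact hT (Finset.Subset.antisymm (Finset.filter_subset _ _) h1)
    · exact ⟨w, Finset.mem_compl.2 hw⟩
    · exact Finset.disjoint_sdiff
    · rw [Finset.disjoint_left]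
      intro a ha hb
      exact (Finset.mem_compl.1 hb) (Finset.mem_filter.1 ha).1
    · rw [Finset.disjoint_left]
      intro a ha hb
      exact (Finset.mem_compl.1 hb) (Finset.mem_sdiff.1 ha).1
    · intro a ha b hb hab
      obtain ⟨h1, h2⟩ := Finset.mem_sdiff.1 ha
      have h3 : ng G a ⊆ X := by
        by_contra h4
        exact h2 (Finset.mem_filter.2 ⟨h1, h4⟩)
      exact (Finset.mem_compl.1 hb) (h3 ((c2_mem_ng G a b).2 hab))

open Classical in
/-- the local inequality -/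
theorem c2_loc {V : Type} [Fintype V] (G : SimpleGraph V) (R X B : Finset V)
    (hR : ∀ Y : Finset V, G.IsClique (Y : Set V) → R ⊆ Y → Y = R)
    (hdom : ∀ v, v ∉ R → ∃ r ∈ R, G.Adj v r)
    (hX : X ∈ mc5 G) (hXR : X ≠ R) (hρ : (X ∩ R).card ≤ 2)
    (hdeg : ∀ v, 7 ≤ (ng G v).card)
    (hconn : ∀ S A B : Finset V, (∀ v, v ∈ S ∨ v ∈ A ∨ v ∈ B) → A.Nonempty → B.Nonempty →
      Disjoint S A → Disjoint S B → Disjoint A B → (∀ a ∈ A, ∀ b ∈ B, ¬ G.Adj a b) → 7 ≤ S.card)
    (hB : ∀ v ∈ B, v ∉ R ∧ v ∈ X ∧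
      ((gg G v = 3 ∧ ng G v ⊆ X) ∨ (gg G v = 4 ∧ ∃ y, ng G v ⊆ insert y X))) :
    ∑ v ∈ B, (6 - gg G v - ((ng G v ∩ R).card : ℤ)) ≤
      ((X.card : ℤ) - 4) * (3 - ((X ∩ R).card : ℤ)) := by
  have hX' := (c2_mem_mc5 G X).1 hX
  rcases B.eq_empty_or_nonempty with hBe | ⟨v0, hv0⟩
  · rw [hBe, Finset.sum_empty]
    have h5 : (5 : ℤ) ≤ X.card := by exact_mod_cast hX'.1
    have h2 : ((X ∩ R).card : ℤ) ≤ 2 := by exact_mod_cast hρ
    exact mul_nonneg (by linarith) (by linarith)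
  -- the clique has at least seven vertices
  have h7 : 7 ≤ X.card := by
    obtain ⟨_, hvX, hor⟩ := hB v0 hv0
    obtain ⟨y, hy⟩ : ∃ y, ng G v0 ⊆ insert y X := by
      rcases hor with h | h
      · exact ⟨v0, h.2.trans (Finset.subset_insert _ _)⟩
      · exact h.2
    have h1 : ng G v0 ⊆ insert y (X.erase v0) := by
      intro z hz
      have hne : z ≠ v0 := by
        rintro rfl
        exact G.irrefl ((c2_mem_ng G z z).1 hz)
      rcases Finset.mem_insert.1 (hy hz) with h | h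
      · exact Finset.mem_insert.2 (Or.inl h)
      · exact Finset.mem_insert.2 (Or.inr (Finset.mem_erase.2 ⟨hne, h⟩))
    have h2 := (hdeg v0).trans (Finset.card_le_card h1)
    have h3 := Finset.card_insert_le y (X.erase v0)
    have h4 := Finset.card_erase_of_mem hvX
    have h5 : 0 < X.card := Finset.card_pos.2 ⟨v0, hvX⟩
    omega
  have hT := c2_sep G R X hR hX hXR h7 hconn
  have hη1 : ∀ v ∈ B, 1 ≤ (ng G v ∩ R).card := by
    intro v hv
    obtain ⟨r, hr, hvr⟩ := hdom v (hB v hv).1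
    exact Finset.card_pos.2 ⟨r, Finset.mem_inter.2 ⟨(c2_mem_ng G v r).2 hvr, hr⟩⟩
  have hηρ : ∀ v ∈ B, (X ∩ R).card ≤ (ng G v ∩ R).card := by
    intro v hv
    refine Finset.card_le_card fun z hz => ?_
    obtain ⟨h1, h2⟩ := Finset.mem_inter.1 hz
    refine Finset.mem_inter.2 ⟨(c2_mem_ng G v z).2 ?_, h2⟩
    refine hX'.2.1 (Finset.mem_coe.2 (hB v hv).2.1) (Finset.mem_coe.2 h1) ?_
    rintro rfl
    exact (hB v hv).1 h2
  -- the two kinds
  have hsum : ∑ v ∈ B, (6 - gg G v - ((ng G v ∩ R).card : ℤ)) =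
      ∑ v ∈ B.filter (fun v => gg G v = 3), (6 - gg G v - ((ng G v ∩ R).card : ℤ)) +
      ∑ v ∈ B.filter (fun v => ¬ gg G v = 3), (6 - gg G v - ((ng G v ∩ R).card : ℤ)) :=
    (Finset.sum_filter_add_sum_filter_not B _ _).symm
  have hn : (B.filter (fun v => gg G v = 3)).card + (B.filter (fun v => ¬ gg G v = 3)).card =
      B.card := Finset.card_filter_add_card_filter_not _
  have hBX : B.card + (X ∩ R).card ≤ X.card := by
    have h1 : B ⊆ X \ R := fun v hv => Finset.mem_sdiff.2 ⟨(hB v hv).2.1, (hB v hv).1⟩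
    have h2 := Finset.card_le_card h1
    have h3 := Finset.card_sdiff_add_card_inter X R
    omega
  have hn3 : (B.filter (fun v => gg G v = 3)).card + 7 ≤ X.card := by
    have h1 : B.filter (fun v => gg G v = 3) ⊆ X \ X.filter (fun u => ¬ ng G u ⊆ X) := by
      intro v hv
      obtain ⟨h1, h2⟩ := Finset.mem_filter.1 hv
      obtain ⟨_, h3, h4⟩ := hB v h1
      refine Finset.mem_sdiff.2 ⟨h3, fun h5 => (Finset.mem_filter.1 h5).2 ?_⟩
      rcases h4 with h4 | h4
      · exact h4.2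
      · rw [h4.1] at h2
        norm_num at h2
    have h2 := Finset.card_le_card h1
    have h3 := Finset.card_sdiff_add_card_eq_card (Finset.filter_subset (fun u => ¬ ng G u ⊆ X) X)
    omega
  have hs3 : ∑ v ∈ B.filter (fun v => gg G v = 3), (6 - gg G v - ((ng G v ∩ R).card : ℤ)) ≤
      (B.filter (fun v => gg G v = 3)).card * (3 - ((X ∩ R).card : ℤ)) := by
    have h1 := Finset.sum_le_card_nsmul (B.filter (fun v => gg G v = 3))
      (fun v => 6 - gg G v - ((ng G v ∩ R).card : ℤ)) (3 - ((X ∩ R).card : ℤ)) (by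
        intro v hv
        obtain ⟨h1, h2⟩ := Finset.mem_filter.1 hv
        have h3 : ((X ∩ R).card : ℤ) ≤ (ng G v ∩ R).card := by exact_mod_cast hηρ v h1
        rw [h2]
        linarith)
    rwa [nsmul_eq_mul] at h1
  have hs4 : ∑ v ∈ B.filter (fun v => ¬ gg G v = 3), (6 - gg G v - ((ng G v ∩ R).card : ℤ)) ≤
      (B.filter (fun v => ¬ gg G v = 3)).card * (2 - max 1 ((X ∩ R).card : ℤ)) := by
    have h1 := Finset.sum_le_card_nsmul (B.filter (fun v => ¬ gg G v = 3))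
      (fun v => 6 - gg G v - ((ng G v ∩ R).card : ℤ)) (2 - max 1 ((X ∩ R).card : ℤ)) (by
        intro v hv
        obtain ⟨h1, h2⟩ := Finset.mem_filter.1 hv
        have h3 : ((X ∩ R).card : ℤ) ≤ (ng G v ∩ R).card := by exact_mod_cast hηρ v h1
        have h4 : (1 : ℤ) ≤ (ng G v ∩ R).card := by exact_mod_cast hη1 v h1
        have h5 : gg G v = 4 := by
          rcases (hB v h1).2.2 with h | h
          · exact absurd h.1 h2
          · exact h.1
        have h6 := max_le h4 h3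
        rw [h5]
        linarith)
    rwa [nsmul_eq_mul] at h1
  have h30 : (X ∩ R).card = 0 → (B.filter (fun v => gg G v = 3)).card = 0 := by
    intro h0
    rw [Finset.card_eq_zero, Finset.eq_empty_iff_forall_notMem]
    intro v hv
    obtain ⟨h1, h2⟩ := Finset.mem_filter.1 hv
    obtain ⟨_, h3, h4⟩ := hB v h1
    have h5 : ng G v ⊆ X := by
      rcases h4 with h4 | h4
      · exact h4.2
      · rw [h4.1] at h2
        norm_num at h2
    have h6 := hη1 v h1
    have h7 : (ng G v ∩ R).card ≤ (X ∩ R).card :=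
      Finset.card_le_card (Finset.inter_subset_inter_right h5)
    omega
  rw [hsum]
  refine (add_le_add hs3 hs4).trans ?_
  generalize hr : (X ∩ R).card = ρ at *
  generalize hx : X.card = x at *
  generalize h3c : (B.filter (fun v => gg G v = 3)).card = n3 at *
  generalize h4c : (B.filter (fun v => ¬ gg G v = 3)).card = n4 at *
  generalize hb : B.card = b at *
  clear hs3 hs4 hsum hηρ hη1
  have hρ' : ρ = 0 ∨ ρ = 1 ∨ ρ = 2 := by omega
  rcases hρ' with rfl | rfl | rfl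
  · have h := h30 rfl
    subst h
    push_cast
    norm_num
    omega
  · push_cast
    norm_num
    omega
  · push_cast
    norm_num
    omega

open Classical in
theorem c2 : S_C2 := by
  intro V _ G R h3 hcl hmax hdom hint hdeg hconn g3 ge3 ge4
  -- the bad vertices and their cliques
  have hch : ∀ v : V, ∃ X : Finset V, (v ∉ R → gg G v ≤ 4 → X ∈ mc5 G ∧ v ∈ X ∧
      ((gg G v = 3 ∧ ng G v ⊆ X) ∨ (gg G v = 4 ∧ ∃ y, ng G v ⊆ insert y X))) := by
    intro v
    by_cases h : v ∉ R ∧ gg G v ≤ 4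
    · have h1 := g3 v h.1
      have h2 : gg G v = 3 ∨ gg G v = 4 := by omega
      rcases h2 with h2 | h2
      · obtain ⟨X, hX, hv, hn⟩ := ge3 v h.1 h2
        exact ⟨X, fun _ _ => ⟨hX, hv, Or.inl ⟨h2, hn⟩⟩⟩
      · obtain ⟨X, hX, hv, hn⟩ := ge4 v h.1 h2
        exact ⟨X, fun _ _ => ⟨hX, hv, Or.inr ⟨h2, hn⟩⟩⟩
    · exact ⟨∅, fun h1 h2 => absurd ⟨h1, h2⟩ h⟩
  choose Xv hXv using hch
  obtain ⟨Bad, hBad⟩ : ∃ Bad : Finset V,
      Bad = (Finset.univ.filter (fun v => v ∉ R)).filter (fun v => gg G v ≤ 4) := ⟨_, rfl⟩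
  have hmem : ∀ v, v ∈ Bad ↔ v ∉ R ∧ gg G v ≤ 4 := by
    intro v
    rw [hBad, Finset.mem_filter, Finset.mem_filter]
    simp
  have hmaps : ∀ v ∈ Bad, Xv v ∈ (mc5 G).erase R := by
    intro v hv
    obtain ⟨h1, h2⟩ := (hmem v).1 hv
    obtain ⟨h4, h5, _⟩ := hXv v h1 h2
    refine Finset.mem_erase.2 ⟨?_, h4⟩
    intro h6
    rw [h6] at h5
    exact h1 h5
  have e1 : ∑ v ∈ Bad, (gg G v + ((ng G v ∩ R).card : ℤ) - 6) ≤
      ∑ v ∈ Finset.univ.filter (fun v => v ∉ R), (gg G v + ((ng G v ∩ R).card : ℤ) - 6) := by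
    rw [hBad]
    refine Finset.sum_le_sum_of_subset_of_nonneg (Finset.filter_subset _ _) ?_
    intro v hv hv2
    have h1 : v ∉ R := (Finset.mem_filter.1 hv).2
    have h2 : 5 ≤ gg G v := by
      by_contra h
      exact hv2 (Finset.mem_filter.2 ⟨hv, by omega⟩)
    obtain ⟨r, hr, hvr⟩ := hdom v h1
    have h4 : 0 < (ng G v ∩ R).card :=
      Finset.card_pos.2 ⟨r, Finset.mem_inter.2 ⟨(c2_mem_ng G v r).2 hvr, hr⟩⟩
    omega
  have e2 : ∑ v ∈ Bad, (gg G v + ((ng G v ∩ R).card : ℤ) - 6) =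
      - ∑ X ∈ (mc5 G).erase R, ∑ v ∈ Bad.filter (fun v => Xv v = X),
        (6 - gg G v - ((ng G v ∩ R).card : ℤ)) := by
    rw [Finset.sum_fiberwise_of_maps_to hmaps, ← Finset.sum_neg_distrib]
    exact Finset.sum_congr rfl fun v _ => by ring
  have e3 : ∑ X ∈ (mc5 G).erase R, ∑ v ∈ Bad.filter (fun v => Xv v = X),
        (6 - gg G v - ((ng G v ∩ R).card : ℤ)) ≤
      ∑ X ∈ (mc5 G).erase R, ((X.card : ℤ) - 4) * (3 - ((X ∩ R).card : ℤ)) := by
    refine Finset.sum_le_sum fun X hX => ?_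
    obtain ⟨hXR, hXm⟩ := Finset.mem_erase.1 hX
    refine c2_loc G R X _ hmax hdom hXm hXR (hint X hXm hXR) hdeg hconn ?_
    intro v hv
    obtain ⟨h1, h2⟩ := Finset.mem_filter.1 hv
    obtain ⟨h4, h5⟩ := (hmem v).1 h1
    obtain ⟨_, h6, h7⟩ := hXv v h4 h5
    rw [h2] at h6 h7
    exact ⟨h4, h6, h7⟩
  linarith

end Pool.Agent.N423.HB
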