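import Mathlib
import Pool.Agent.N423.HB.StmX
import Pool.Agent.N423.HB.C2

/-!
# The inequality for twofold domination (after `Pool.Agent.N423.HB.C2`, helper482)
-/

set_option autoImplicit false
set_option linter.unusedSectionVars false

namespace Pool.Agent.N423.HB

open Classical in
/-- the inequality for twofold domination -/
def S_C2d : Prop := ∀ (V : Type) [Fintype V] (G : SimpleGraph V) (R : Finset V),
  G.IsClique (R : Set V) → (∀ Y : Finset V, G.IsClique (Y : Set V) → R ⊆ Y → Y = R) →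
  (∀ v, v ∉ R → 2 ≤ (ng G v ∩ R).card) →
  (∀ X ∈ mc5 G, X ≠ R → (X ∩ R).card ≤ 2) →
  (∀ S A B : Finset V, (∀ v, v ∈ S ∨ v ∈ A ∨ v ∈ B) → A.Nonempty → B.Nonempty →
    Disjoint S A → Disjoint S B → Disjoint A B → (∀ a ∈ A, ∀ b ∈ B, ¬ G.Adj a b) → 4 ≤ S.card) →
  (∀ v, v ∉ R → 3 ≤ gg G v) →
  (∀ v, v ∉ R → gg G v = 3 → ∃ X ∈ mc5 G, v ∈ X ∧ ng G v ⊆ X) →
  0 ≤ ∑ v ∈ Finset.univ.filter (fun v => v ∉ R), (gg G v + ((ng G v ∩ R).card : ℤ) - 6) +
    ∑ X ∈ (mc5 G).erase R, ((X.card : ℤ) - 4) * (3 - ((X ∩ R).card : ℤ))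

open Classical in
/-- the vertices of `X` with a neighbour outside `X` -/
theorem c2d_sep {V : Type} [Fintype V] (G : SimpleGraph V) (R X : Finset V)
    (hR : ∀ Y : Finset V, G.IsClique (Y : Set V) → R ⊆ Y → Y = R)
    (hX : X ∈ mc5 G) (hXR : X ≠ R) (h7 : 5 ≤ X.card)
    (hconn : ∀ S A B : Finset V, (∀ v, v ∈ S ∨ v ∈ A ∨ v ∈ B) → A.Nonempty → B.Nonempty →
      Disjoint S A → Disjoint S B → Disjoint A B → (∀ a ∈ A, ∀ b ∈ B, ¬ G.Adj a b) → 4 ≤ S.card) :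
    4 ≤ (X.filter (fun u => ¬ ng G u ⊆ X)).card := by
  have hX' := (c2_mem_mc5 G X).1 hX
  have hw : ∃ w, w ∉ X := by
    by_contra hcon
    push Not at hcon
    exact hXR (hR X hX'.2.1 (fun r _ => hcon r))
  obtain ⟨w, hw⟩ := hw
  by_cases hT : X.filter (fun u => ¬ ng G u ⊆ X) = X
  · rw [hT]
    omega
  · refine hconn (X.filter (fun u => ¬ ng G u ⊆ X)) (X \ X.filter (fun u => ¬ ng G u ⊆ X)) (Xᶜ)
      ?_ ?_ ?_ ?_ ?_ ?_ ?_
    · intro v
      by_cases h1 : v ∈ X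
      · by_cases h2 : v ∈ X.filter (fun u => ¬ ng G u ⊆ X)
        · exact Or.inl h2
        · exact Or.inr (Or.inl (Finset.mem_sdiff.2 ⟨h1, h2⟩))
      · exact Or.inr (Or.inr (Finset.mem_compl.2 h1))
    · rw [Finset.nonempty_iff_ne_empty]
      intro h1
      rw [Finset.sdiff_eq_empty_iff_subset] at h1
      exact hT (Finset.Subset.antisymm (Finset.filter_subset _ _) h1)
    · exact ⟨w, Finset.mem_compl.2 hw⟩
    · exact Finset.disjoint_sdiff
    · rw [Finset.disjoint_left]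
      intro a ha hb
      exact (Finset.mem_compl.1 hb) (Finset.mem_filter.1 ha).1
    · rw [Finset.disjoint_left]
      intro a ha hb
      exact (Finset.mem_compl.1 hb) (Finset.mem_sdiff.1 ha).1
    · intro a ha b hb hab
      obtain ⟨h1, h2⟩ := Finset.mem_sdiff.1 ha
      have h3 : ng G a ⊆ X := by
        by_contra h4
        exact h2 (Finset.mem_filter.2 ⟨h1, h4⟩)
      exact (Finset.mem_compl.1 hb) (h3 ((c2_mem_ng G a b).2 hab))

open Classical in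
/-- the local inequality -/
theorem c2d_loc {V : Type} [Fintype V] (G : SimpleGraph V) (R X B : Finset V)
    (hR : ∀ Y : Finset V, G.IsClique (Y : Set V) → R ⊆ Y → Y = R)
    (hX : X ∈ mc5 G) (hXR : X ≠ R) (hρ : (X ∩ R).card ≤ 2)
    (hconn : ∀ S A B : Finset V, (∀ v, v ∈ S ∨ v ∈ A ∨ v ∈ B) → A.Nonempty → B.Nonempty →
      Disjoint S A → Disjoint S B → Disjoint A B → (∀ a ∈ A, ∀ b ∈ B, ¬ G.Adj a b) → 4 ≤ S.card)
    (hB : ∀ v ∈ B, v ∉ R ∧ v ∈ X ∧ (gg G v = 3 ∧ ng G v ⊆ X)) :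
    ∑ v ∈ B, (6 - gg G v - ((ng G v ∩ R).card : ℤ)) ≤
      ((X.card : ℤ) - 4) * (3 - ((X ∩ R).card : ℤ)) := by
  have hX' := (c2_mem_mc5 G X).1 hX
  have h2 : ((X ∩ R).card : ℤ) ≤ 2 := by exact_mod_cast hρ
  have hT := c2d_sep G R X hR hX hXR hX'.1 hconn
  have hn3 : B.card + 4 ≤ X.card := by
    have h1 : B ⊆ X \ X.filter (fun u => ¬ ng G u ⊆ X) := by
      intro v hv
      obtain ⟨_, h3, h4⟩ := hB v hv
      exact Finset.mem_sdiff.2 ⟨h3, fun h5 => (Finset.mem_filter.1 h5).2 h4.2⟩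
    have h2 := Finset.card_le_card h1
    have h3 := Finset.card_sdiff_add_card_eq_card (Finset.filter_subset (fun u => ¬ ng G u ⊆ X) X)
    omega
  have hs3 : ∑ v ∈ B, (6 - gg G v - ((ng G v ∩ R).card : ℤ)) ≤
      (B.card : ℤ) * (3 - ((X ∩ R).card : ℤ)) := by
    have h1 := Finset.sum_le_card_nsmul B
      (fun v => 6 - gg G v - ((ng G v ∩ R).card : ℤ)) (3 - ((X ∩ R).card : ℤ)) (by
        intro v hv
        have h3 : ((X ∩ R).card : ℤ) ≤ (ng G v ∩ R).card := by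
          have : (X ∩ R).card ≤ (ng G v ∩ R).card := by
            refine Finset.card_le_card fun z hz => ?_
            obtain ⟨h1, h2⟩ := Finset.mem_inter.1 hz
            refine Finset.mem_inter.2 ⟨(c2_mem_ng G v z).2 ?_, h2⟩
            refine hX'.2.1 (Finset.mem_coe.2 (hB v hv).2.1) (Finset.mem_coe.2 h1) ?_
            rintro rfl
            exact (hB v hv).1 h2
          exact_mod_cast this
        rw [(hB v hv).2.2.1]
        linarith)
    rwa [nsmul_eq_mul] at h1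
  refine hs3.trans ?_
  have h3 : ((B.card : ℤ) + 4 ≤ X.card) := by exact_mod_cast hn3
  exact mul_le_mul_of_nonneg_right (by linarith) (by linarith)

open Classical in
theorem c2d : S_C2d := by
  intro V _ G R hcl hmax hdom hint hconn g3 ge3
  -- the bad vertices and their cliques
  have hch : ∀ v : V, ∃ X : Finset V, (v ∉ R → gg G v ≤ 3 → X ∈ mc5 G ∧ v ∈ X ∧
      (gg G v = 3 ∧ ng G v ⊆ X)) := by
    intro v
    by_cases h : v ∉ R ∧ gg G v ≤ 3
    · have h1 := g3 v h.1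
      have h2 : gg G v = 3 := by omega
      obtain ⟨X, hX, hv, hn⟩ := ge3 v h.1 h2
      exact ⟨X, fun _ _ => ⟨hX, hv, h2, hn⟩⟩
    · exact ⟨∅, fun h1 h2 => absurd ⟨h1, h2⟩ h⟩
  choose Xv hXv using hch
  obtain ⟨Bad, hBad⟩ : ∃ Bad : Finset V,
      Bad = (Finset.univ.filter (fun v => v ∉ R)).filter (fun v => gg G v ≤ 3) := ⟨_, rfl⟩
  have hmem : ∀ v, v ∈ Bad ↔ v ∉ R ∧ gg G v ≤ 3 := by
    intro v
    rw [hBad, Finset.mem_filter, Finset.mem_filter]
    simp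
  have hmaps : ∀ v ∈ Bad, Xv v ∈ (mc5 G).erase R := by
    intro v hv
    obtain ⟨h1, h2⟩ := (hmem v).1 hv
    obtain ⟨h4, h5, _⟩ := hXv v h1 h2
    refine Finset.mem_erase.2 ⟨?_, h4⟩
    intro h6
    rw [h6] at h5
    exact h1 h5
  have e1 : ∑ v ∈ Bad, (gg G v + ((ng G v ∩ R).card : ℤ) - 6) ≤
      ∑ v ∈ Finset.univ.filter (fun v => v ∉ R), (gg G v + ((ng G v ∩ R).card : ℤ) - 6) := by
    rw [hBad]
    refine Finset.sum_le_sum_of_subset_of_nonneg (Finset.filter_subset _ _) ?_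
    intro v hv hv2
    have h1 : v ∉ R := (Finset.mem_filter.1 hv).2
    have h2 : 4 ≤ gg G v := by
      by_contra h
      exact hv2 (Finset.mem_filter.2 ⟨hv, by omega⟩)
    have h4 := hdom v h1
    omega
  have e2 : ∑ v ∈ Bad, (gg G v + ((ng G v ∩ R).card : ℤ) - 6) =
      - ∑ X ∈ (mc5 G).erase R, ∑ v ∈ Bad.filter (fun v => Xv v = X),
        (6 - gg G v - ((ng G v ∩ R).card : ℤ)) := by
    rw [Finset.sum_fiberwise_of_maps_to hmaps, ← Finset.sum_neg_distrib]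
    exact Finset.sum_congr rfl fun v _ => by ring
  have e3 : ∑ X ∈ (mc5 G).erase R, ∑ v ∈ Bad.filter (fun v => Xv v = X),
        (6 - gg G v - ((ng G v ∩ R).card : ℤ)) ≤
      ∑ X ∈ (mc5 G).erase R, ((X.card : ℤ) - 4) * (3 - ((X ∩ R).card : ℤ)) := by
    refine Finset.sum_le_sum fun X hX => ?_
    obtain ⟨hXR, hXm⟩ := Finset.mem_erase.1 hX
    refine c2d_loc G R X _ hmax hXm hXR (hint X hXm hXR) hconn ?_
    intro v hv
    obtain ⟨h1, h2⟩ := Finset.mem_filter.1 hv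
    obtain ⟨h4, h5⟩ := (hmem v).1 h1
    obtain ⟨_, h6, h7⟩ := hXv v h4 h5
    rw [h2] at h6 h7
    exact ⟨h4, h6, h7⟩
  linarith

end Pool.Agent.N423.HB
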