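import Mathlib
import Pool.Agent.N423.HB.StmX
import Pool.Agent.N423.HB.C2

/-!
# The inequality without a bound for `R` (after `Pool.Agent.N423.HB.C2`, helper482)
-/

set_option autoImplicit false

namespace Pool.Agent.N423.HB

open Classical in
theorem c2x : S_C2x := by
  intro V _ G R hcl hmax hdom hint hdeg hconn g3 ge3 ge4
  -- the bad vertices and their cliques
  have hch : ∀ v : V, ∃ X : Finset V, (v ∉ R → gg G v ≤ 4 → X ∈ mc5 G ∧ v ∈ X ∧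
      ((gg G v = 3 ∧ ng G v ⊆ X) ∨ (gg G v = 4 ∧ ∃ y, ng G v ⊆ insert y X))) := by
    intro v
    by_cases h : v ∉ R ∧ gg G v ≤ 4
    · have h1 := g3 v h.1
      have h2 : gg G v = 3 ∨ gg G v = 4 := by omega
      rcases h2 with h2 | h2
      · obtain ⟨X, hX, hv, hn⟩ := ge3 v h.1 h2
        exact ⟨X, fun _ _ => ⟨hX, hv, Or.inl ⟨h2, hn⟩⟩⟩
      · obtain ⟨X, hX, hv, hn⟩ := ge4 v h.1 h2
        exact ⟨X, fun _ _ => ⟨hX, hv, Or.inr ⟨h2, hn⟩⟩⟩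
    · exact ⟨∅, fun h1 h2 => absurd ⟨h1, h2⟩ h⟩
  choose Xv hXv using hch
  obtain ⟨Bad, hBad⟩ : ∃ Bad : Finset V,
      Bad = (Finset.univ.filter (fun v => v ∉ R)).filter (fun v => gg G v ≤ 4) := ⟨_, rfl⟩
  have hmem : ∀ v, v ∈ Bad ↔ v ∉ R ∧ gg G v ≤ 4 := by
    intro v
    rw [hBad, Finset.mem_filter, Finset.mem_filter]
    simp
  have hmaps : ∀ v ∈ Bad, Xv v ∈ (mc5 G).erase R := by
    intro v hv
    obtain ⟨h1, h2⟩ := (hmem v).1 hv
    obtain ⟨h4, h5, _⟩ := hXv v h1 h2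
    refine Finset.mem_erase.2 ⟨?_, h4⟩
    intro h6
    rw [h6] at h5
    exact h1 h5
  have e1 : ∑ v ∈ Bad, (gg G v + ((ng G v ∩ R).card : ℤ) - 6) ≤
      ∑ v ∈ Finset.univ.filter (fun v => v ∉ R), (gg G v + ((ng G v ∩ R).card : ℤ) - 6) := by
    rw [hBad]
    refine Finset.sum_le_sum_of_subset_of_nonneg (Finset.filter_subset _ _) ?_
    intro v hv hv2
    have h1 : v ∉ R := (Finset.mem_filter.1 hv).2
    have h2 : 5 ≤ gg G v := by
      by_contra h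
      exact hv2 (Finset.mem_filter.2 ⟨hv, by omega⟩)
    obtain ⟨r, hr, hvr⟩ := hdom v h1
    have h4 : 0 < (ng G v ∩ R).card :=
      Finset.card_pos.2 ⟨r, Finset.mem_inter.2 ⟨(c2_mem_ng G v r).2 hvr, hr⟩⟩
    omega
  have e2 : ∑ v ∈ Bad, (gg G v + ((ng G v ∩ R).card : ℤ) - 6) =
      - ∑ X ∈ (mc5 G).erase R, ∑ v ∈ Bad.filter (fun v => Xv v = X),
        (6 - gg G v - ((ng G v ∩ R).card : ℤ)) := by
    rw [Finset.sum_fiberwise_of_maps_to hmaps, ← Finset.sum_neg_distrib]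
    exact Finset.sum_congr rfl fun v _ => by ring
  have e3 : ∑ X ∈ (mc5 G).erase R, ∑ v ∈ Bad.filter (fun v => Xv v = X),
        (6 - gg G v - ((ng G v ∩ R).card : ℤ)) ≤
      ∑ X ∈ (mc5 G).erase R, ((X.card : ℤ) - 4) * (3 - ((X ∩ R).card : ℤ)) := by
    refine Finset.sum_le_sum fun X hX => ?_
    obtain ⟨hXR, hXm⟩ := Finset.mem_erase.1 hX
    refine c2_loc G R X _ hmax hdom hXm hXR (hint X hXm hXR) hdeg hconn ?_
    intro v hv
    obtain ⟨h1, h2⟩ := Finset.mem_filter.1 hv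
    obtain ⟨h4, h5⟩ := (hmem v).1 h1
    obtain ⟨_, h6, h7⟩ := hXv v h4 h5
    rw [h2] at h6 h7
    exact ⟨h4, h6, h7⟩
  linarith

end Pool.Agent.N423.HB
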