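import Mathlib
import Pool.Agent.N423.HB.Stm0

/-!
Removing a vertex from the maximal cliques.  By helper322.
-/

namespace Pool.Agent.N423.HB

namespace StpAux

variable {V : Type}

theorem H_adj [Fintype V] [DecidableEq V] (G : SimpleGraph V) (v a b : V) :
    (G.deleteIncidenceSet v).Adj a b ↔ G.Adj a b ∧ a ≠ v ∧ b ≠ v :=
  SimpleGraph.deleteIncidenceSet_adj

theorem mem_mc5 [Fintype V] (G : SimpleGraph V) (X : Finset V) :
    X ∈ mc5 G ↔ 5 ≤ X.card ∧ G.IsClique (X : Set V) ∧
      ∀ Y : Finset V, G.IsClique (Y : Set V) → X ⊆ Y → Y = X := by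
  classical
  unfold mc5
  rw [Finset.mem_filter]
  simp [MaxClique5]

variable [Fintype V] [DecidableEq V]

theorem cl1 {G : SimpleGraph V} {v : V} {X : Finset V} (hv : v ∉ X)
    (h : G.IsClique (X : Set V)) : (G.deleteIncidenceSet v).IsClique (X : Set V) := by
  intro a ha b hb hab
  rw [H_adj]
  refine ⟨h ha hb hab, ?_, ?_⟩
  · rintro rfl; exact hv (by simpa using ha)
  · rintro rfl; exact hv (by simpa using hb)

theorem cl2 {G : SimpleGraph V} {v : V} {X : Finset V}
    (h : (G.deleteIncidenceSet v).IsClique (X : Set V)) : G.IsClique (X : Set V) := by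
  intro a ha b hb hab
  exact ((H_adj G v a b).1 (h ha hb hab)).1

theorem cl3 {G : SimpleGraph V} {v : V} {X : Finset V}
    (h : (G.deleteIncidenceSet v).IsClique (X : Set V)) (hX : 5 ≤ X.card) : v ∉ X := by
  intro hv
  obtain ⟨w, hw, hwv⟩ := Finset.exists_mem_ne (by omega : 1 < X.card) v
  exact ((H_adj G v w v).1 (h (by simpa using hw) (by simpa using hv) hwv)).2.2 rfl

omit [Fintype V] in
theorem ins {G : SimpleGraph V} {v : V} {K : Finset V} (h1 : ∀ a ∈ K, G.Adj v a)
    (h2 : G.IsClique (K : Set V)) : G.IsClique ((insert v K : Finset V) : Set V) := by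
  intro a ha b hb hab
  rw [Finset.mem_coe, Finset.mem_insert] at ha hb
  rcases ha with rfl | ha <;> rcases hb with rfl | hb
  · exact absurd rfl hab
  · exact h1 b hb
  · exact (h1 a ha).symm
  · exact h2 (by simpa using ha) (by simpa using hb) hab

end StpAux

open StpAux

/-- removing a vertex from the maximal cliques -/
theorem stp : S_STP := by
  intro V _ _ G v K hvK hadj hK hmax hK5
  have hins := ins hadj hK
  have hcI : (insert v K).card = K.card + 1 := Finset.card_insert_of_notMem hvK
  -- maximal cliques without `v`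
  have hno : ∀ X : Finset V, v ∉ X →
      (X ∈ mc5 G ↔ X ∈ mc5 (G.deleteIncidenceSet v) ∧ X ≠ K) := by
    intro X hX
    rw [mem_mc5, mem_mc5]
    constructor
    · rintro ⟨h5, hc, hm⟩
      refine ⟨⟨h5, cl1 hX hc, fun Y hY hXY => hm Y (cl2 hY) hXY⟩, ?_⟩
      rintro rfl
      have := hm (insert v X) hins (Finset.subset_insert v X)
      apply hX
      rw [← this]
      exact Finset.mem_insert_self v X
    · rintro ⟨⟨h5, hc, hm⟩, hXK⟩
      refine ⟨h5, cl2 hc, fun Y hY hXY => ?_⟩
      by_cases hvY : v ∈ Y
      · exfalso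
        have h6 : 5 ≤ Y.card := h5.trans (Finset.card_le_card hXY)
        have h7 := hmax Y hY h6 hvY
        have h8 : X ⊆ K := by
          intro x hx
          have := h7 (hXY hx)
          rw [Finset.mem_insert] at this
          rcases this with rfl | h
          · exact absurd hx hX
          · exact h
        exact hXK (hm K (cl1 hvK hK) h8).symm
      · exact hm Y (cl1 hvY hY) hXY
  -- maximal cliques with `v`
  have hyes : ∀ X : Finset V, v ∈ X → (X ∈ mc5 G ↔ X = insert v K ∧ 4 ≤ K.card) := by
    intro X hX
    rw [mem_mc5]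
    constructor
    · rintro ⟨h5, hc, hm⟩
      have h7 := hmax X hc h5 hX
      have h8 := hm (insert v K) hins h7
      refine ⟨h8.symm, ?_⟩
      rw [← h8, hcI] at h5
      omega
    · rintro ⟨rfl, h4⟩
      refine ⟨by rw [hcI]; omega, hins, fun Y hY hKY => ?_⟩
      have h6 : 5 ≤ Y.card := by
        have := Finset.card_le_card hKY
        rw [hcI] at this
        omega
      exact Finset.Subset.antisymm (hmax Y hY h6 (hKY (Finset.mem_insert_self v K))) hKY
  have hnoH : ∀ X ∈ mc5 (G.deleteIncidenceSet v), v ∉ X := by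
    intro X hX
    rw [mem_mc5] at hX
    exact cl3 hX.2.1 hX.1
  by_cases h4 : 4 ≤ K.card
  · have hset : mc5 G = insert (insert v K) ((mc5 (G.deleteIncidenceSet v)).erase K) := by
      ext X
      rw [Finset.mem_insert, Finset.mem_erase]
      by_cases hX : v ∈ X
      · rw [hyes X hX]
        constructor
        · rintro ⟨h, _⟩; exact Or.inl h
        · rintro (h | h)
          · exact ⟨h, h4⟩
          · exact absurd hX (hnoH X h.2)
      · rw [hno X hX]
        constructor
        · rintro ⟨h, h'⟩; exact Or.inr ⟨h', h⟩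
        · rintro (h | h)
          · exfalso; apply hX; rw [h]; exact Finset.mem_insert_self v K
          · exact ⟨h.2, h.1⟩
    have hnot : insert v K ∉ (mc5 (G.deleteIncidenceSet v)).erase K := by
      intro h
      exact hnoH _ (Finset.mem_of_mem_erase h) (Finset.mem_insert_self v K)
    have hG : nul G = (K.card + 1 - 3).choose 2
        + ∑ X ∈ (mc5 (G.deleteIncidenceSet v)).erase K, (X.card - 3).choose 2 := by
      unfold nul
      rw [hset, Finset.sum_insert hnot, hcI]
    by_cases h5 : 5 ≤ K.card
    · have hKm : K ∈ mc5 (G.deleteIncidenceSet v) := by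
        rw [mem_mc5]
        refine ⟨h5, cl1 hvK hK, fun Y hY hKY => ?_⟩
        have h6 : 5 ≤ Y.card := h5.trans (Finset.card_le_card hKY)
        exact hK5 h5 Y (cl2 hY) hKY (cl3 hY h6)
      have hH : nul (G.deleteIncidenceSet v) = (K.card - 3).choose 2
          + ∑ X ∈ (mc5 (G.deleteIncidenceSet v)).erase K, (X.card - 3).choose 2 := by
        unfold nul
        exact (Finset.add_sum_erase _ _ hKm).symm
      have h9 : (K.card + 1 - 3).choose 2 = (K.card - 3).choose 2 + (K.card - 3) := by
        obtain ⟨m, hm⟩ : ∃ m, K.card = m + 3 := ⟨K.card - 3, by omega⟩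
        rw [hm]
        have e1 : m + 3 + 1 - 3 = m + 1 := by omega
        have e2 : m + 3 - 3 = m := by omega
        rw [e1, e2]
        exact (Nat.choose_succ_succ' m 1).trans (by rw [Nat.choose_one_right, add_comm])
      rw [hG, hH, h9]
      omega
    · have hc4 : K.card = 4 := by omega
      have hKm : K ∉ mc5 (G.deleteIncidenceSet v) := by
        rw [mem_mc5]
        rintro ⟨h, _⟩
        exact h5 h
      rw [Finset.erase_eq_of_notMem hKm, hc4] at hG
      rw [hG, hc4]
      unfold nul
      norm_num
      omega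
  · have hset : mc5 G = mc5 (G.deleteIncidenceSet v) := by
      ext X
      by_cases hX : v ∈ X
      · rw [hyes X hX]
        constructor
        · rintro ⟨_, h⟩; exact absurd h h4
        · intro h; exact absurd hX (hnoH X h)
      · rw [hno X hX]
        constructor
        · rintro ⟨h, _⟩; exact h
        · intro h
          refine ⟨h, ?_⟩
          rintro rfl
          rw [mem_mc5] at h
          omega
    unfold nul
    rw [hset]
    omega

end Pool.Agent.N423.HB
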