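import Mathlib
import Pool.Agent.N423.HB.StmC
import Pool.Agent.N423.HB.STP

/-!
The nullities when a vertex is removed.  By helper887.
-/

set_option autoImplicit false

namespace Pool.Agent.N423.HB

namespace C3Aux

open StpAux

variable {V : Type} [Fintype V] [DecidableEq V]

theorem exists_max (G : SimpleGraph V) {Y : Finset V} (hY : G.IsClique (Y : Set V)) :
    ∃ X : Finset V, G.IsClique (X : Set V) ∧ Y ⊆ X ∧
      ∀ Z : Finset V, G.IsClique (Z : Set V) → X ⊆ Z → Z = X := by
  classical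
  obtain ⟨X, hX, hmax⟩ := Finset.exists_max_image
    (Finset.univ.filter fun Z : Finset V => G.IsClique (Z : Set V) ∧ Y ⊆ Z) Finset.card
    ⟨Y, Finset.mem_filter.2 ⟨Finset.mem_univ _, hY, Finset.Subset.refl _⟩⟩
  rw [Finset.mem_filter] at hX
  refine ⟨X, hX.2.1, hX.2.2, fun Z hZ hXZ => ?_⟩
  have h1 := hmax Z (Finset.mem_filter.2 ⟨Finset.mem_univ _, hZ, hX.2.2.trans hXZ⟩)
  exact (Finset.eq_of_subset_of_card_le hXZ h1).symm

theorem cl_erase {G : SimpleGraph V} {v : V} {X : Finset V} (h : G.IsClique (X : Set V)) :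
    (G.deleteIncidenceSet v).IsClique ((X.erase v : Finset V) : Set V) := by
  refine cl1 (Finset.notMem_erase v X) ?_
  intro a ha b hb hab
  rw [Finset.mem_coe, Finset.mem_erase] at ha hb
  exact h (by simpa using ha.2) (by simpa using hb.2) hab

theorem main (G : SimpleGraph V) (v : V)
    (h : ∀ X ∈ mc5 G, v ∈ X → 6 ≤ X.card → ∀ Y : Finset V, G.IsClique (Y : Set V) →
      X.erase v ⊆ Y → v ∉ Y → Y = X.erase v) :
    nul G = nul (G.deleteIncidenceSet v) +
      ∑ X ∈ (mc5 G).filter (fun X => v ∈ X), (X.card - 4) := by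
  have hset : mc5 (G.deleteIncidenceSet v) = (mc5 G).filter (fun X => v ∉ X) ∪
      ((mc5 G).filter (fun X => v ∈ X ∧ 6 ≤ X.card)).image (fun X => X.erase v) := by
    ext X'
    rw [Finset.mem_union, Finset.mem_filter, Finset.mem_image]
    constructor
    · intro hX'
      obtain ⟨h5, hc, hm⟩ := (mem_mc5 _ X').1 hX'
      have hv : v ∉ X' := cl3 hc h5
      by_cases hG : X' ∈ mc5 G
      · exact Or.inl ⟨hG, hv⟩
      · right
        have h1 : ∃ Y : Finset V, G.IsClique (Y : Set V) ∧ X' ⊆ Y ∧ Y ≠ X' := by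
          by_contra hcon
          push Not at hcon
          exact hG ((mem_mc5 G X').2 ⟨h5, cl2 hc, fun Y hY hXY => hcon Y hY hXY⟩)
        obtain ⟨Y, hY, hXY, hne⟩ := h1
        obtain ⟨X, hX, hYX, hXm⟩ := exists_max G hY
        have hX'X : X' ⊆ X := hXY.trans hYX
        have hvX : v ∈ X := by
          by_contra hvX
          have h2 := hm X (cl1 hvX hX) hX'X
          apply hne
          exact Finset.Subset.antisymm (hYX.trans h2.subset) hXY
        have h3 : X' ⊆ X.erase v := fun x hx =>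
          Finset.mem_erase.2 ⟨fun e => hv (e ▸ hx), hX'X hx⟩
        have h4 := hm (X.erase v) (cl_erase hX) h3
        have h6 : X'.card = X.card - 1 := by
          rw [← h4, Finset.card_erase_of_mem hvX]
        have h7 : 6 ≤ X.card := by omega
        refine ⟨X, Finset.mem_filter.2 ⟨(mem_mc5 G X).2 ⟨by omega, hX, hXm⟩, hvX, h7⟩, h4⟩
    · rintro (⟨hG, hv⟩ | ⟨X, hX, rfl⟩)
      · obtain ⟨h5, hc, hm⟩ := (mem_mc5 _ X').1 hG
        exact (mem_mc5 _ X').2 ⟨h5, cl1 hv hc, fun Y hY hXY => hm Y (cl2 hY) hXY⟩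
      · obtain ⟨hXG, hvX, h6⟩ := Finset.mem_filter.1 hX
        obtain ⟨h5, hc, hm⟩ := (mem_mc5 _ X).1 hXG
        have hcard : (X.erase v).card = X.card - 1 := Finset.card_erase_of_mem hvX
        refine (mem_mc5 _ _).2 ⟨by omega, cl_erase hc, fun Y hY hXY => ?_⟩
        have hY5 : 5 ≤ Y.card := by
          have := Finset.card_le_card hXY
          omega
        exact h X hXG hvX h6 Y (cl2 hY) hXY (cl3 hY hY5)
  have hdis : Disjoint ((mc5 G).filter (fun X => v ∉ X))
      (((mc5 G).filter (fun X => v ∈ X ∧ 6 ≤ X.card)).image (fun X => X.erase v)) := by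
    rw [Finset.disjoint_left]
    intro X' h1 h2
    obtain ⟨hG, -⟩ := Finset.mem_filter.1 h1
    obtain ⟨X, hX, rfl⟩ := Finset.mem_image.1 h2
    obtain ⟨hXG, hvX, h6⟩ := Finset.mem_filter.1 hX
    have h3 := ((mem_mc5 _ _).1 hG).2.2 X ((mem_mc5 _ _).1 hXG).2.1 (Finset.erase_subset v X)
    rw [h3] at hvX
    exact Finset.notMem_erase v _ hvX
  have hinj : Set.InjOn (fun X : Finset V => X.erase v)
      (((mc5 G).filter (fun X => v ∈ X ∧ 6 ≤ X.card) : Finset (Finset V)) : Set (Finset V)) := by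
    intro X hX Y hY hXY
    have h1 := (Finset.mem_filter.1 hX).2.1
    have h2 := (Finset.mem_filter.1 hY).2.1
    have h3 : X.erase v = Y.erase v := hXY
    rw [← Finset.insert_erase h1, ← Finset.insert_erase h2, h3]
  have hH : nul (G.deleteIncidenceSet v) =
      ∑ X ∈ (mc5 G).filter (fun X => v ∉ X), (X.card - 3).choose 2 +
        ∑ X ∈ (mc5 G).filter (fun X => v ∈ X), (X.card - 4).choose 2 := by
    unfold nul
    rw [hset, Finset.sum_union hdis, Finset.sum_image hinj]
    congr 1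
    have h1 : ∑ X ∈ (mc5 G).filter (fun X => v ∈ X), (X.card - 4).choose 2 =
        ∑ X ∈ (mc5 G).filter (fun X => v ∈ X ∧ 6 ≤ X.card), (X.card - 4).choose 2 := by
      symm
      refine Finset.sum_subset ?_ ?_
      · intro X hX
        rw [Finset.mem_filter] at hX ⊢
        exact ⟨hX.1, hX.2.1⟩
      · intro X hX hX2
        rw [Finset.mem_filter] at hX hX2
        have h2 : ¬ 6 ≤ X.card := fun h6 => hX2 ⟨hX.1, hX.2, h6⟩
        have h3 := ((mem_mc5 _ _).1 hX.1).1
        have h4 : X.card - 4 = 1 := by omega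
        rw [h4]
        rfl
    rw [h1]
    refine Finset.sum_congr rfl fun X hX => ?_
    obtain ⟨hXG, hvX, h6⟩ := Finset.mem_filter.1 hX
    rw [Finset.card_erase_of_mem hvX]
    congr 1
  have hG : nul G = ∑ X ∈ (mc5 G).filter (fun X => v ∉ X), (X.card - 3).choose 2 +
        ∑ X ∈ (mc5 G).filter (fun X => v ∈ X), (X.card - 3).choose 2 := by
    unfold nul
    rw [add_comm, Finset.sum_filter_add_sum_filter_not]
  have hC : ∑ X ∈ (mc5 G).filter (fun X => v ∈ X), (X.card - 3).choose 2 =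
      ∑ X ∈ (mc5 G).filter (fun X => v ∈ X), (X.card - 4).choose 2 +
        ∑ X ∈ (mc5 G).filter (fun X => v ∈ X), (X.card - 4) := by
    rw [← Finset.sum_add_distrib]
    refine Finset.sum_congr rfl fun X hX => ?_
    have h3 := ((mem_mc5 _ _).1 (Finset.mem_filter.1 hX).1).1
    obtain ⟨m, hm⟩ : ∃ m, X.card = m + 4 := ⟨X.card - 4, by omega⟩
    rw [hm]
    have e1 : m + 4 - 3 = m + 1 := by omega
    have e2 : m + 4 - 4 = m := by omega
    rw [e1, e2]
    exact (Nat.choose_succ_succ' m 1).trans (by rw [Nat.choose_one_right, add_comm])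
  rw [hG, hH, hC, add_assoc]

end C3Aux

/-- the nullities when a vertex is removed -/
theorem c3 : S_C3 := by
  classical
  intro V _ G v h
  have h1 := C3Aux.main G v (fun X hX hv h6 Y hY hXY hvY => by
    have h2 := h X hX hv h6 Y hY
    convert h2 ?_ hvY using 1
    convert hXY using 1)
  rw [h1]

end Pool.Agent.N423.HB
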