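import Mathlib
import Pool.Agent.N423.HB.Stm0

/-!
Project HB (helper423), leaf CVA (helper118): the number of Dress and the nullities of the
maximal cliques.
-/

set_option autoImplicit false

namespace Pool.Agent.N423.HB

lemma cva_choose (n : ℕ) (hn : 5 ≤ n) :
    ((n.choose 2 : ℕ) : ℤ) = (3 * (n : ℤ) - 6) + ((n - 3).choose 2 : ℕ) := by
  obtain ⟨m, rfl⟩ : ∃ m, n = m + 3 := ⟨n - 3, by omega⟩
  have h1 : (m + 3).choose 2 = 3 * m + 3 + m.choose 2 := by
    have e1 : (m + 3).choose 2 = (m + 2).choose 1 + (m + 2).choose 2 :=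
      Nat.choose_succ_succ' (m + 2) 1
    have e2 : (m + 2).choose 2 = (m + 1).choose 1 + (m + 1).choose 2 :=
      Nat.choose_succ_succ' (m + 1) 1
    have e3 : (m + 1).choose 2 = m.choose 1 + m.choose 2 := Nat.choose_succ_succ' m 1
    rw [Nat.choose_one_right] at e1 e2 e3
    omega
  rw [h1, Nat.add_sub_cancel]
  push_cast
  ring

open Classical in
/-- the number of edges inside a clique -/
lemma cva_clique {V : Type} [Fintype V] (G : SimpleGraph V) (X : Finset V)
    (hX : G.IsClique (X : Set V)) :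
    (G.edgeFinset.filter fun e => ∀ w ∈ e, w ∈ X).card = X.card.choose 2 := by
  rw [← Sym2.card_image_offDiag X]
  congr 1
  ext e
  induction e using Sym2.ind with
  | _ a b =>
    rw [Finset.mem_filter, SimpleGraph.mem_edgeFinset, SimpleGraph.mem_edgeSet, Finset.mem_image]
    constructor
    · rintro ⟨hab, h⟩
      refine ⟨(a, b), ?_, rfl⟩
      rw [Finset.mem_offDiag]
      exact ⟨h a (Sym2.mem_mk_left a b), h b (Sym2.mem_mk_right a b), hab.ne⟩
    · rintro ⟨⟨x, y⟩, hp, hxy⟩
      rw [Finset.mem_offDiag] at hp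
      obtain ⟨hx, hy, hne⟩ := hp
      have hadj : G.Adj x y := hX (Finset.mem_coe.2 hx) (Finset.mem_coe.2 hy) hne
      have hxy' : s(x, y) = s(a, b) := hxy
      constructor
      · rw [← SimpleGraph.mem_edgeSet, ← hxy', SimpleGraph.mem_edgeSet]
        exact hadj
      · rw [← hxy']
        intro w hw
        rcases Sym2.mem_iff.1 hw with rfl | rfl
        · exact hx
        · exact hy

open Classical in
/-- **the number of Dress and the nullities of the maximal cliques** -/
theorem cva : S_CVA := by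
  intro V _ G
  have hdeg : ∀ e, degX G e = ((mc5 G).filter fun X => ∀ w ∈ e, w ∈ X).card := by
    intro e
    unfold degX mc5
    rw [Finset.filter_filter]
  have hE : (G.edgeSet.ncard : ℤ) = (G.edgeFinset.card : ℤ) := by
    rw [← SimpleGraph.coe_edgeFinset, Set.ncard_coe_finset]
  -- double counting
  have hdc : ∑ e ∈ G.edgeFinset, (degX G e : ℤ) =
      ∑ X ∈ mc5 G, ((X.card.choose 2 : ℕ) : ℤ) := by
    have h1 : ∑ e ∈ G.edgeFinset, degX G e = ∑ X ∈ mc5 G, X.card.choose 2 := by
      calc ∑ e ∈ G.edgeFinset, degX G e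
          = ∑ e ∈ G.edgeFinset, ∑ X ∈ mc5 G, (if ∀ w ∈ e, w ∈ X then 1 else 0) := by
            refine Finset.sum_congr rfl fun e _ => ?_
            rw [hdeg e, Finset.card_filter]
        _ = ∑ X ∈ mc5 G, ∑ e ∈ G.edgeFinset, (if ∀ w ∈ e, w ∈ X then 1 else 0) :=
            Finset.sum_comm
        _ = ∑ X ∈ mc5 G, X.card.choose 2 := by
            refine Finset.sum_congr rfl fun X hX => ?_
            rw [← Finset.card_filter]
            have hX' : MaxClique5 G X := (Finset.mem_filter.1 hX).2
            exact cva_clique G X hX'.2.1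
    exact_mod_cast h1
  -- the edges
  have hcard : (G.edgeFinset.card : ℤ) =
      ((G.edgeFinset.filter fun e => degX G e = 0).card : ℤ) +
        ∑ e ∈ G.edgeFinset, (degX G e : ℤ) -
        ∑ e ∈ G.edgeFinset, (if 2 ≤ degX G e then (degX G e : ℤ) - 1 else 0) := by
    rw [Finset.card_eq_sum_ones, Finset.card_filter]
    push_cast
    rw [← Finset.sum_add_distrib, ← Finset.sum_sub_distrib]
    refine Finset.sum_congr rfl fun e _ => ?_
    by_cases h0 : degX G e = 0
    · rw [if_pos h0, if_neg (by omega), h0]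
      simp
    · rw [if_neg h0]
      by_cases h2 : 2 ≤ degX G e
      · rw [if_pos h2]; ring
      · rw [if_neg h2]
        have : degX G e = 1 := by omega
        rw [this]; simp
  have hch : ∑ X ∈ mc5 G, ((X.card.choose 2 : ℕ) : ℤ) =
      ∑ X ∈ mc5 G, (3 * (X.card : ℤ) - 6) + (nul G : ℤ) := by
    unfold nul
    push_cast
    rw [← Finset.sum_add_distrib]
    refine Finset.sum_congr rfl fun X hX => ?_
    have hX' : MaxClique5 G X := (Finset.mem_filter.1 hX).2
    exact cva_choose X.card hX'.1
  rw [hE, hcard, hdc, hch]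
  unfold cval
  show ∑ X ∈ mc5 G, (3 * (X.card : ℤ) - 6) + _ - _ + (nul G : ℤ) = _
  ring

end Pool.Agent.N423.HB
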