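import Mathlib
import Pool.Agent.N423.DC.AllT

/-!
# Induction over the closed graphs with a dominating clique
-/

set_option autoImplicit false
set_option linter.unusedSectionVars false

namespace Pool.Agent.N423.HB

open Matrix Finset Pool.Agent.H283R2.DR Pool.Agent.H789R5 Pool.Agent.N423.DE Pool.Agent.N423.DC
  Pool.Agent.N423.DT

/-- The vertex `v` of `G` can be removed: either the edges at `v` are independent of the others, or
its neighbours are a complete graph `K` with at least four vertices and at most one further vertex,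
whose edge to `v` is independent of the others. -/
structure SD {V : Type} [Fintype V] (p : V → Fin 3 → ℝ) (G : SimpleGraph V) (v : V)
    (K : Finset V) : Prop where
  sub : K ⊆ nb G v
  clq : Cq G K
  cs : (K = ∅ ∧ mo (G.deleteIncidenceSet v) p = mo G p + (nb G v).card) ∨
    (4 ≤ K.card ∧ (nb G v).card ≤ K.card + 1 ∧
      mo (G.deleteIncidenceSet v) p + K.card = mo G p + 3 + (nb G v).card)

variable {V : Type} [Fintype V] {p : V → Fin 3 → ℝ} {G : SimpleGraph V} {v : V}

theorem sd_indep (h : mo G p + (nb G v).card ≤ mo (G.deleteIncidenceSet v) p) : SD p G v ∅ := by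
  refine ⟨empty_subset _, fun a ha => by simp at ha, Or.inl ⟨rfl, ?_⟩⟩
  have := mo_del_le G p v
  omega

theorem sd_low (hp : MG p) (h : (nb G v).card ≤ 3) : SD p G v ∅ :=
  sd_indep (ext0 hp G v (nb G v) h (fun z hz => mem_nb.1 hz))

theorem sd_full (hp : MG p) (hG : Closed G p) (h4 : 4 ≤ (nb G v).card)
    (hmo : mo (G.deleteIncidenceSet v) p ≤ mo G p + 3) : SD p G v (nb G v) := by
  refine ⟨Subset.refl _, caseB hp (by norm_num) hG (v := v) (by omega) hmo, Or.inr ⟨h4, by omega, ?_⟩⟩
  have h3 : mo G p + 3 ≤ mo (G.deleteIncidenceSet v) p := by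
    obtain ⟨T, hT, hTc⟩ := exists_subset_card_eq (show 3 ≤ (nb G v).card by omega)
    have := ext0 hp G v T hTc.le (fun z hz => mem_nb.1 (hT hz))
    omega
  omega

theorem sd_one {y : V} [DecidableEq V] (hy : y ∈ nb G v) (hc : Cq G ((nb G v).erase y))
    (h5 : 5 ≤ (nb G v).card) (hmo : mo (G.deleteIncidenceSet v) p = mo G p + 4) :
    SD p G v ((nb G v).erase y) := by
  refine ⟨erase_subset _ _, hc, Or.inr ?_⟩
  rw [card_erase_of_mem hy]
  omega

variable [DecidableEq V] {P : SimpleGraph V → Prop}

theorem closed_cmp (hp : MG p) (U : Finset V) : Closed (DE.cmp U) p := by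
  intro a b hab himp
  refine ⟨hab, ?_, ?_⟩
  · by_contra ha
    exact not_imp_isolated hp (by norm_num) (G := DE.cmp U) (v := a) (y := b)
      (fun z hz => ha hz.2.1) hab himp
  · by_contra hb
    exact not_imp_isolated hp (by norm_num) (G := DE.cmp U) (v := b) (y := a)
      (fun z hz => hb hz.2.1) hab.symm himp.symm

theorem cmp_ind (hp : MG p) (h0 : P ⊥)
    (hstep : ∀ (G : SimpleGraph V) (v : V) (K : Finset V), Closed G p → SD p G v K →
      P (G.deleteIncidenceSet v) → P G) (n : ℕ) : ∀ U : Finset V, U.card = n → P (DE.cmp U) := by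
  induction n with
  | zero =>
    intro U hU
    have hFb : DE.cmp U = ⊥ := by
      ext a b
      simp only [SimpleGraph.bot_adj, iff_false]
      rintro ⟨-, h, -⟩
      rw [card_eq_zero.1 hU] at h
      simp at h
    rw [hFb]
    exact h0
  | succ n ih =>
    intro U hU
    obtain ⟨v, hv⟩ : U.Nonempty := by rw [← card_pos, hU]; omega
    have h1 := ih (U.erase v) (by rw [card_erase_of_mem hv, hU]; rfl)
    rw [← cmp_del] at h1
    by_cases h3 : (nb (DE.cmp U) v).card ≤ 3
    · exact hstep _ v ∅ (closed_cmp hp U) (sd_low hp h3) h1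
    · refine hstep _ v (nb (DE.cmp U) v) (closed_cmp hp U) (sd_full hp (closed_cmp hp U) (by omega) ?_)
        h1
      apply gain_clique hp
      intro a ha b hb hab
      rw [nb_cmp hv] at ha hb
      exact ⟨hab, mem_of_mem_erase ha, mem_of_mem_erase hb⟩

theorem small_ind (hp : MG p) (h0 : P ⊥)
    (hstep : ∀ (G : SimpleGraph V) (v : V) (K : Finset V), Closed G p → SD p G v K →
      P (G.deleteIncidenceSet v) → P G) (n : ℕ) (hn : n ≤ 4) : ∀ U : Finset V, U.card = n →
    ∀ G : SimpleGraph V, Closed G p → (∀ a b, G.Adj a b → a ∈ U) → P G := by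
  induction n with
  | zero =>
    intro U hU G _ hs
    have hFb : G = ⊥ := by
      ext a b
      simp only [SimpleGraph.bot_adj, iff_false]
      intro h
      have := hs a b h
      rw [card_eq_zero.1 hU] at this
      simp at this
    rw [hFb]
    exact h0
  | succ n ih =>
    intro U hU G hG hs
    obtain ⟨v, hv⟩ : U.Nonempty := by rw [← card_pos, hU]; omega
    refine hstep G v ∅ hG (sd_low hp ?_) (ih (by omega) (U.erase v)
      (by rw [card_erase_of_mem hv, hU]; rfl) _ (closed_del hp (by norm_num) hG v) ?_)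
    · have h1 : nb G v ⊆ U.erase v := fun z hz =>
        mem_erase.2 ⟨(mem_nb.1 hz).ne.symm, hs z v (mem_nb.1 hz).symm⟩
      have := card_le_card h1
      rw [card_erase_of_mem hv] at this
      omega
    · intro a b hab
      rw [SimpleGraph.deleteIncidenceSet_adj] at hab
      exact mem_erase.2 ⟨hab.2.1, hs a b hab.1⟩

theorem dom_ind (hp : MG p) (h0 : P ⊥)
    (hstep : ∀ (G : SimpleGraph V) (v : V) (K : Finset V), Closed G p → SD p G v K →
      P (G.deleteIncidenceSet v) → P G) (R : Finset V) :
    ∀ (n : ℕ) (Z : Finset V), Z.card = n → ∀ G : SimpleGraph V, Closed G p → Dom G R Z → P G := by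
  intro n
  induction n with
  | zero =>
    intro Z hn G hG hD
    rw [card_eq_zero] at hn
    subst hn
    have e : G = DE.cmp R := by
      ext a b
      constructor
      · intro h
        refine ⟨h.ne, (hD.supp a b h).resolve_right (Finset.notMem_empty a),
          (hD.supp b a h.symm).resolve_right (Finset.notMem_empty b)⟩
      · rintro ⟨hab, ha, hb⟩
        exact hD.clique a ha b hb hab
    rw [e]
    exact cmp_ind hp h0 hstep _ R rfl
  | succ n ih =>
    intro Z hn G hG hD
    by_cases hnc : ∃ a b, (a ∈ R ∨ a ∈ Z) ∧ (b ∈ R ∨ b ∈ Z) ∧ a ≠ b ∧ ¬ G.Adj a b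
    · obtain ⟨v, hv, hmo⟩ := tvtx tdsm V G R Z p hp hG hD hnc
      have hs : P (G.deleteIncidenceSet v) :=
        ih (Z.erase v) (by rw [card_erase_of_mem hv, hn]; rfl) (G.deleteIncidenceSet v)
          (closed_del hp (by norm_num) hG v) (hD.delV hv)
      by_cases hN3 : (nb G v).card ≤ 3
      · exact hstep G v ∅ hG (sd_low hp hN3) hs
      by_cases hmo3 : mo (G.deleteIncidenceSet v) p ≤ mo G p + 3
      · exact hstep G v _ hG (sd_full hp hG (by omega) hmo3) hs
      by_cases hN4 : (nb G v).card ≤ 4
      · exact hstep G v ∅ hG (sd_indep (by omega)) hs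
      · obtain ⟨y, hy, hyc⟩ := tgn4 (ttwo timg tx2) V G p hp hG v (by omega) hmo
          (fun y hy hi => t_k5t V G R Z p hp hG hD v y hy hi)
        exact hstep G v _ hG (sd_one hy hyc (by omega) (by omega)) hs
    · push Not at hnc
      have e : G = DE.cmp (R ∪ Z) := by
        ext a b
        constructor
        · intro h
          exact ⟨h.ne, mem_union.2 (hD.supp a b h), mem_union.2 (hD.supp b a h.symm)⟩
        · rintro ⟨hab, ha, hb⟩
          exact hnc a b (mem_union.1 ha) (mem_union.1 hb) hab
      rw [e]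
      exact cmp_ind hp h0 hstep _ _ rfl

theorem pair_ind (hp : MG p) (h0 : P ⊥)
    (hstep : ∀ (G : SimpleGraph V) (v : V) (K : Finset V), Closed G p → SD p G v K →
      P (G.deleteIncidenceSet v) → P G) {R : Finset V} :
    ∀ (n : ℕ) (U : Finset V), U.card = n → ∀ G : SimpleGraph V, Closed G p → Hub 3 G R U →
      P G := by
  intro n
  induction n with
  | zero =>
    intro U hU G hG hh
    exact small_ind hp h0 hstep 0 (by omega) U hU G hG hh.supp
  | succ n ih =>
    intro U hU G hG hh
    by_cases hUR : U ⊆ R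
    · exact small_ind hp h0 hstep U.card (by have := card_le_card hUR; have := hh.card; omega) U rfl
        G hG hh.supp
    have hd : 1 ≤ 3 := by norm_num
    have ihP : ∀ w ∈ U \ R, P (G.deleteIncidenceSet w) := by
      intro w hw
      rw [mem_sdiff] at hw
      exact ih (U.erase w) (by rw [card_erase_of_mem hw.1, hU]; rfl) _ (closed_del hp hd hG w)
        (hh.del hw.2)
    have ih' : ∀ w ∈ U \ R, HasSeq (G.deleteIncidenceSet w) p := by
      intro w hw
      rw [mem_sdiff] at hw
      exact main_aux hp hd _ (U.erase w) rfl _ (closed_del hp hd hG w) (hh.del hw.2)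
    by_contra hno
    have hA : ∀ v ∈ U \ R, 3 + 1 ≤ (nb G v).card := by
      intro v hv
      by_contra hc
      apply hno
      exact hstep G v ∅ hG (sd_low hp (by omega)) (ihP v hv)
    have hB : ∀ v ∈ U \ R, mo G p + (3 + 1) ≤ mo (G.deleteIncidenceSet v) p := by
      intro v hv
      by_contra hc
      apply hno
      have h1 := hA v hv
      exact hstep G v _ hG (sd_full hp hG (by omega) (by omega)) (ihP v hv)
    have hC : ∀ v ∈ U \ R, mo (G.deleteIncidenceSet v) p ≤ mo G p + (3 + 1) →
        3 + 2 ≤ (nb G v).card := by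
      intro v hv hmo
      by_contra hc
      apply hno
      have := hA v hv
      have := hB v hv
      exact hstep G v ∅ hG (sd_indep (by omega)) (ihP v hv)
    have hD : ∀ v ∈ U \ R, mo (G.deleteIncidenceSet v) p ≤ mo G p + (3 + 1) →
        ∀ y ∈ nb G v, ¬ Cq G ((nb G v).erase y) := by
      intro v hv hmo y hy hcl
      apply hno
      have := hC v hv hmo
      have := hB v hv
      exact hstep G v _ hG (sd_one hy hcl (by omega) (by omega)) (ihP v hv)
    obtain ⟨v0, hv0U, hv0R⟩ := not_subset.1 hUR
    have hv0 : v0 ∈ U \ R := mem_sdiff.2 ⟨hv0U, hv0R⟩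
    have hcardR := hh.card
    have hUd : 3 ≤ U.card := by
      have h1 : insert v0 R ⊆ U := by
        intro a ha
        rcases mem_insert.1 ha with rfl | ha
        · exact hv0U
        · exact hh.sub ha
      have := card_le_card h1
      rw [card_insert_of_notMem hv0R] at this
      omega
    have hnc : ∃ a ∈ U, ∃ b ∈ U, a ≠ b ∧ ¬ G.Adj a b := by
      by_contra hc
      push Not at hc
      have h1 : Cq G (nb G v0) := fun a ha b hb hab =>
        hc a (hh.supp' (mem_nb.1 ha)) b (hh.supp' (mem_nb.1 hb)) hab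
      have h2 := gain_clique hp h1
      have h3 := hB v0 hv0
      omega
    have hmo := mo_not_cmp hp hG hUd hh.supp hnc
    -- the basis
    let S : SimpleGraph V :=
      { Adj := fun a b => G.Adj a b ∧ (a ∈ R ∨ b ∈ R)
        symm := ⟨fun _ _ h => ⟨h.1.symm, h.2.symm⟩⟩
        loopless := ⟨fun _ h => h.1.ne rfl⟩ }
    have hSG : S ≤ G := fun _ _ h => h.1
    have hSind := indep_small hp (R := R) (by omega) U.card U rfl S
      (fun a b h => hh.supp a b h.1) (fun a b h => h.2)
    obtain ⟨B, hSB, hBG, hBc, hBm⟩ := exists_basis p hSG hSind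
    have hBR : Cq B R := fun a ha b hb hab => hSB ⟨hh.clq a ha b hb hab, Or.inl ha⟩
    have hds := degree_sum (B := B) hh.sub hBR (by
      intro v hv hvR
      obtain ⟨S', h1, h2, h3⟩ := hh.dom v hv hvR
      exact ⟨S', h1, by omega, fun r hr => hSB ⟨h3 r hr, Or.inr (h1 hr)⟩⟩)
    have hdeg : ∀ v ∈ U \ R, 3 + 1 ≤ (nb B v).card := by
      intro v hv
      have h1 := hB v hv
      have h2 := mo_anti (del_mono hBG v) p
      have h3 := mo_del_le B p v
      omega
    set Z := (U \ R).filter (fun v => (nb B v).card = 3 + 1) with hZ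
    have hZ4 : 4 ≤ Z.card := by
      have h4 : (3 + 2) * (U \ R).card ≤ ∑ v ∈ U \ R, (nb B v).card + Z.card := by
        rw [hZ, card_filter, ← sum_add_distrib, mul_comm, ← smul_eq_mul]
        refine card_nsmul_le_sum _ _ _ ?_
        intro v hv
        have := hdeg v hv
        split_ifs <;> omega
      have hT : 2 * (3 * (3 + 1) / 2) = 3 * (3 + 1) :=
        Nat.mul_div_cancel' (Nat.even_mul_succ_self 3).two_dvd
      have hR1 : R.card = 3 - 1 := by omega
      have hU1 : U.card = (U \ R).card + (3 - 1) := by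
        rw [card_sdiff_of_subset hh.sub]
        omega
      have hU2 : U.card - R.card = (U \ R).card := (card_sdiff_of_subset hh.sub).symm
      rw [hU2, hR1] at hds
      rw [hU1] at hmo
      exact arith 3 _ _ _ _ _ _ _ hd hds (by rw [← hBm]; exact hBc) hmo hT h4
    -- the vertices of degree `3 + 1` of the basis
    have hZmem : ∀ v ∈ Z, v ∈ U \ R ∧ (nb B v).card = 3 + 1 := fun v hv => by
      rw [hZ, mem_filter] at hv
      exact hv
    have hZmo : ∀ v ∈ Z, mo (G.deleteIncidenceSet v) p ≤ mo G p + (3 + 1) ∧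
        mo (B.deleteIncidenceSet v) p ≤ mo G p + (3 + 1) := by
      intro v hv
      have h1 := (hZmem v hv).2
      have h2 := mo_anti (del_mono hBG v) p
      have h3 := mo_del_le B p v
      omega
    have hP : ∀ v ∈ Z, ∀ w ∈ Z, v ≠ w → G.Adj v w ∧ ¬ B.Adj v w ∧
        mo (G.deleteIncidenceSet w) p + (3 + 1) =
          mo ((G.deleteIncidenceSet w).deleteIncidenceSet v) p := by
      intro v hv w hw hvw
      obtain ⟨hvUR, hvB⟩ := hZmem v hv
      obtain ⟨hwUR, hwB⟩ := hZmem w hw
      have hvd := hC v hvUR (hZmo v hv).1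
      have hvD := hD v hvUR (hZmo v hv).1
      have hwmo := hB w hwUR
      have hwmo2 := (hZmo w hw)
      have hnbG := nb_del G v w hvw
      have hnbB := nb_del B v w hvw
      set Gw := G.deleteIncidenceSet w with hGw
      have hGwc : Closed Gw p := closed_del hp hd hG w
      have h1 := mo_anti (del_mono (del_mono hBG w) v) p
      rw [← hGw] at h1
      have h2 := mo_del_le (B.deleteIncidenceSet w) p v
      have hnbw : (nb G v).card ≤ (nb Gw v).card + 1 := by
        rw [hnbG]
        have := pred_card_le_card_erase (s := nb G v) (a := w)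
        omega
      have h3 : mo Gw p + (3 + 1) ≤ mo (Gw.deleteIncidenceSet v) p := by
        by_contra hc
        have h4 := caseB hp hd hGwc (v := v) (by omega) (by omega)
        rw [hnbG] at h4
        have h5 : Cq G ((nb G v).erase w) := h4.mono (G.deleteIncidenceSet_le w)
        by_cases hwn : w ∈ nb G v
        · exact hvD w hwn h5
        · obtain ⟨y, hy⟩ : (nb G v).Nonempty := card_pos.1 (by omega)
          rw [erase_eq_of_notMem hwn] at h5
          exact hvD y hy (h5.subset (erase_subset _ _))
      have h4 : ¬ B.Adj v w := by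
        intro h
        rw [hnbB, card_erase_of_mem (mem_nb.2 h), hvB] at h2
        omega
      have h5 : (nb (B.deleteIncidenceSet w) v).card ≤ 3 + 1 := by
        rw [hnbB, ← hvB]
        exact card_le_card (erase_subset _ _)
      have h6 : mo Gw p + (3 + 1) = mo (Gw.deleteIncidenceSet v) p := by omega
      refine ⟨?_, h4, h6⟩
      by_contra hadj
      have hwn : w ∉ nb G v := fun h => hadj (mem_nb.1 h)
      have hwR := (mem_sdiff.1 hwUR).2
      obtain ⟨y, hy, hyc⟩ := lemC hp hd hGwc (hh.del hwR) (ih' w hwUR) (v := v) (w := w)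
        (mem_sdiff.1 hvUR).2 (by simp) hvw (by rw [hnbG, erase_eq_of_notMem hwn]; exact hvd) h6
      rw [hnbG, erase_eq_of_notMem hwn] at hy hyc
      exact hvD y hy (hyc.mono (G.deleteIncidenceSet_le w))
    obtain ⟨v, hv⟩ : Z.Nonempty := card_pos.1 (by omega)
    have h3 : 2 < (Z.erase v).card := by
      rw [card_erase_of_mem hv]; omega
    obtain ⟨a, ha, b, hb, c, hc, hab, hac, hbc⟩ := two_lt_card.1 h3
    rw [mem_erase] at ha hb hc
    let z : Fin 3 → V := ![a, b, c]
    have hzZ : ∀ i, z i ∈ Z := by
      intro i; fin_cases i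
      · exact ha.2
      · exact hb.2
      · exact hc.2
    have hzv : ∀ i, v ≠ z i := by
      intro i; fin_cases i
      · exact ha.1.symm
      · exact hb.1.symm
      · exact hc.1.symm
    have hzinj : ∀ i j, i ≠ j → z i ≠ z j := by
      intro i j hij
      fin_cases i <;> fin_cases j <;>
        first
        | exact (hij rfl).elim
        | exact hab
        | exact hac
        | exact hbc
        | exact hab.symm
        | exact hac.symm
        | exact hbc.symm
    obtain ⟨hvUR, hvB⟩ := hZmem v hv
    have hcard : 3 + 4 ≤ (nb G v).card := by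
      have h1 : nb B v ∪ {a, b, c} ⊆ nb G v := by
        intro x hx
        rw [mem_union] at hx
        rcases hx with hx | hx
        · exact mem_nb.2 (hBG (mem_nb.1 hx))
        · rw [mem_insert, mem_insert, mem_singleton] at hx
          rcases hx with rfl | rfl | rfl
          · exact mem_nb.2 (hP v hv _ (hzZ 0) (hzv 0)).1
          · exact mem_nb.2 (hP v hv _ (hzZ 1) (hzv 1)).1
          · exact mem_nb.2 (hP v hv _ (hzZ 2) (hzv 2)).1
      have h2 := card_le_card h1
      rw [card_union_of_disjoint, hvB, card_eq_three.2 ⟨a, b, c, hab, hac, hbc, rfl⟩] at h2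
      · omega
      · rw [disjoint_left]
        intro x hx hx'
        rw [mem_insert, mem_insert, mem_singleton] at hx'
        have hx := mem_nb.1 hx
        rcases hx' with rfl | rfl | rfl
        · exact (hP v hv _ (hzZ 0) (hzv 0)).2.1 hx
        · exact (hP v hv _ (hzZ 1) (hzv 1)).2.1 hx
        · exact (hP v hv _ (hzZ 2) (hzv 2)).2.1 hx
    have hex : ∀ i, ∃ y ∈ nb G v, Cq G (((nb G v).erase (z i)).erase y) := by
      intro i
      obtain ⟨hzUR, -⟩ := hZmem _ (hzZ i)
      have hnbG := nb_del G v (z i) (hzv i)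
      obtain ⟨y, hy, hyc⟩ := lemC hp hd (closed_del hp hd hG (z i)) (hh.del (mem_sdiff.1 hzUR).2)
        (ih' _ hzUR) (v := v) (w := z i) (mem_sdiff.1 hvUR).2 (by simp) (hzv i) (by
          rw [hnbG]
          have := pred_card_le_card_erase (s := nb G v) (a := z i)
          omega) (hP v hv _ (hzZ i) (hzv i)).2.2
      rw [hnbG] at hy hyc
      exact ⟨y, mem_of_mem_erase hy, hyc.mono (G.deleteIncidenceSet_le _)⟩
    choose y hy hyc using hex
    obtain ⟨x, hx, hxc⟩ := combi (G := G) (N := nb G v) (z := z) (y := y)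
      (fun i j hij => (hP _ (hzZ i) _ (hzZ j) (hzinj i j hij)).1)
      (fun i => mem_nb.2 (hP v hv _ (hzZ i) (hzv i)).1) hy hyc
    exact hD v hvUR (hZmo v hv).1 x hx hxc

/-- **Induction over the closed graphs with a dominating clique.** -/
theorem hub_ind (hp : MG p) (h0 : P ⊥)
    (hstep : ∀ (G : SimpleGraph V) (v : V) (K : Finset V), Closed G p → SD p G v K →
      P (G.deleteIncidenceSet v) → P G) {R : Finset V} (hR : R.Nonempty) {G : SimpleGraph V}
    (hG : Closed G p) (hclq : Cq G R) (hdom : ∀ v, v ∉ R → ∃ r ∈ R, G.Adj v r) : P G := by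
  by_cases h3 : 3 ≤ R.card
  · refine dom_ind hp h0 hstep R _ Rᶜ rfl G hG
      ⟨fun x hx h => (mem_compl.1 h) hx, h3, hclq, ?_, fun v hv => hdom v (mem_compl.1 hv)⟩
    intro x y _
    by_cases hx : x ∈ R
    · exact Or.inl hx
    · exact Or.inr (mem_compl.2 hx)
  -- a dominating pair
  have key : ∀ R : Finset V, R.card = 2 → Cq G R → (∀ v, v ∉ R → ∃ r ∈ R, G.Adj v r) → P G := by
    intro R hR hclq hdom
    refine pair_ind hp h0 hstep (R := R) _ univ rfl G hG ⟨by omega, subset_univ R,
      fun _ _ _ => mem_univ _, hclq, ?_⟩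
    intro v _ hv
    obtain ⟨r, hr, h⟩ := hdom v hv
    refine ⟨{r}, singleton_subset_iff.2 hr, by simp, ?_⟩
    intro r' hr'
    rw [mem_singleton] at hr'
    subst hr'
    exact h
  by_cases h2 : R.card = 2
  · exact key R h2 hclq hdom
  have h1 : R.card = 1 := by
    have := card_pos.2 hR
    omega
  obtain ⟨r, rfl⟩ := card_eq_one.1 h1
  by_cases hx : ∃ x, x ≠ r
  · obtain ⟨x, hx⟩ := hx
    have hd : ∀ v, v ≠ r → G.Adj v r := by
      intro v hv
      obtain ⟨s, hs, h'⟩ := hdom v (by rw [mem_singleton]; exact hv)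
      rw [mem_singleton] at hs
      rw [hs] at h'
      exact h'
    refine key {r, x} (card_pair hx.symm) ?_ ?_
    · intro a ha b hb hab
      rw [mem_insert, mem_singleton] at ha hb
      rcases ha with rfl | rfl <;> rcases hb with rfl | rfl
      · exact absurd rfl hab
      · exact (hd b hx).symm
      · exact hd a hx
      · exact absurd rfl hab
    · intro v hv
      refine ⟨r, mem_insert_self _ _, hd v ?_⟩
      rintro rfl
      exact hv (mem_insert_self _ _)
  · push Not at hx
    have hb : G = ⊥ := by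
      ext a b
      simp only [SimpleGraph.bot_adj, iff_false]
      intro hab
      exact hab.ne ((hx a).trans (hx b).symm)
    rw [hb]
    exact h0

end Pool.Agent.N423.HB
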