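import Mathlib
import Pool.Agent.N423.HB.Ind
import Pool.Agent.N423.HB.CVA
import Pool.Agent.N423.HB.STP

/-!
# The rank of the closed graphs with a dominating clique
-/

set_option autoImplicit false
set_option linter.unusedSectionVars false

namespace Pool.Agent.N423.HB

open Matrix Finset Pool.Agent.H283R2.DR Pool.Agent.H789R5 Pool.Agent.N423.DE Pool.Agent.N423.DC
  Pool.Agent.N423.DT

variable {V : Type} [Fintype V] [DecidableEq V] {p : V → Fin 3 → ℝ} {G : SimpleGraph V} {v : V}

theorem cq_of_clique {X : Finset V} (h : G.IsClique (X : Set V)) : Cq G X :=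
  fun a ha b hb hab => h (by exact_mod_cast ha) (by exact_mod_cast hb) hab

theorem clique_of_cq {X : Finset V} (h : Cq G X) : G.IsClique (X : Set V) :=
  fun a ha b hb hab => h a (by exact_mod_cast ha) b (by exact_mod_cast hb) hab

/-- a vertex in a clique with at least five vertices has dependent edges -/
theorem gain_lt (hp : MG p) {X : Finset V} (hX : Cq G X) (h5 : 5 ≤ X.card) (hv : v ∈ X) :
    mo (G.deleteIncidenceSet v) p < mo G p + (nb G v).card := by
  obtain ⟨y, hy⟩ : (X.erase v).Nonempty := by
    rw [← card_pos, card_erase_of_mem hv]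
    omega
  have hyv := ne_of_mem_erase hy
  have hyX := mem_of_mem_erase hy
  have hadj : G.Adj v y := hX v hv y hyX hyv.symm
  set F := del G v y with hF
  have hFadj : ∀ a b, F.Adj a b ↔ G.Adj a b ∧ s(a, b) ≠ s(v, y) := fun a b => TMIN.del_adj
  have hi : Imp F p v y := by
    refine imp_common hp (T := (X.erase v).erase y) ?_ ?_ hyv.symm ?_ ?_
    · rw [card_erase_of_mem hy, card_erase_of_mem hv]
      omega
    · intro a ha b hb hab
      rw [mem_erase, mem_erase] at ha hb
      refine (hFadj a b).2 ⟨hX a ha.2.2 b hb.2.2 hab, ?_⟩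
      intro h
      rcases Sym2.eq_iff.1 h with ⟨h, -⟩ | ⟨h, -⟩
      · exact ha.2.1 h
      · exact ha.1 h
    · intro t ht
      rw [mem_erase, mem_erase] at ht
      refine (hFadj v t).2 ⟨hX v hv t ht.2.2 (Ne.symm ht.2.1), ?_⟩
      intro h
      rcases Sym2.eq_iff.1 h with ⟨-, h⟩ | ⟨h, -⟩
      · exact ht.1 h
      · exact hyv h.symm
    · intro t ht
      rw [mem_erase, mem_erase] at ht
      refine (hFadj y t).2 ⟨hX y hyX t ht.2.2 (Ne.symm ht.1), ?_⟩
      intro h
      rcases Sym2.eq_iff.1 h with ⟨h, -⟩ | ⟨-, h⟩
      · exact hyv h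
      · exact ht.2.1 h
  have h1 : mo F p ≤ mo G p := by
    apply mo_le_of_imp
    intro a b hab q hq
    exact TMIN.mot_del hi hq a b hab
  have h2 : F.deleteIncidenceSet v = G.deleteIncidenceSet v := by
    ext a b
    rw [SimpleGraph.deleteIncidenceSet_adj, SimpleGraph.deleteIncidenceSet_adj, hFadj]
    constructor
    · rintro ⟨⟨h, -⟩, h1, h2⟩
      exact ⟨h, h1, h2⟩
    · rintro ⟨h, h1, h2⟩
      refine ⟨⟨h, ?_⟩, h1, h2⟩
      intro h'
      rcases Sym2.eq_iff.1 h' with ⟨h3, -⟩ | ⟨-, h3⟩
      · exact h1 h3
      · exact h2 h3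
  have h3 := mo_del_le F p v
  rw [h2] at h3
  have h4 : nb F v ⊆ (nb G v).erase y := by
    intro z hz
    rw [mem_nb, hFadj] at hz
    rw [mem_erase, mem_nb]
    refine ⟨?_, hz.1⟩
    rintro rfl
    exact hz.2 rfl
  have h5 := card_le_card h4
  rw [card_erase_of_mem (mem_nb.2 hadj)] at h5
  have h6 := card_pos.2 ⟨y, mem_nb.2 hadj⟩
  omega

/-- nullity formula -/
theorem nul_hub (hp : MG p) {R : Finset V} (hR : R.Nonempty) (hG : Closed G p) (hclq : Cq G R)
    (hdom : ∀ v, v ∉ R → ∃ r ∈ R, G.Adj v r) :
    mo G p + G.edgeSet.ncard = 3 * Fintype.card V + nul G := by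
  refine hub_ind (P := fun H => mo H p + H.edgeSet.ncard = 3 * Fintype.card V + nul H) hp ?_ ?_ hR hG
    hclq hdom
  · have h1 := mo_lower (⊥ : SimpleGraph V) p
    have h2 := mo_le (⊥ : SimpleGraph V) p
    have h3 : nul (⊥ : SimpleGraph V) = 0 := by
      classical
      unfold nul
      apply Finset.sum_eq_zero
      intro X hX
      unfold mc5 at hX
      rw [mem_filter] at hX
      obtain ⟨a, ha, b, hb, hab⟩ := one_lt_card.1 (show 1 < X.card by have := hX.2.1; omega)
      exact absurd (hX.2.2.1 (by exact_mod_cast ha) (by exact_mod_cast hb) hab) (by simp)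
    simp only [SimpleGraph.edgeSet_bot, Set.ncard_empty, add_zero] at h1 ⊢
    omega
  · intro G v K hG hS ih
    have hvK : v ∉ K := fun h => not_mem_nb G v (hS.sub h)
    -- the neighbours are a clique only if they are `K`
    have hone : 4 ≤ K.card → mo (G.deleteIncidenceSet v) p + K.card = mo G p + 3 + (nb G v).card →
        ∀ y ∈ nb G v, y ∉ K → (nb G v).card ≤ K.card + 1 → ¬ ∀ k ∈ K, G.Adj y k := by
      intro h4 hmo y hy hyK hc hall
      have h1 : insert y K ⊆ nb G v := insert_subset hy hS.sub
      have h2 : insert y K = nb G v := by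
        apply eq_of_subset_of_card_le h1
        rw [card_insert_of_notMem hyK]
        exact hc
      have h3 := gain_clique hp (G := G) (v := v) (by
        rw [← h2]
        intro a ha b hb hab
        rcases mem_insert.1 ha with ha' | ha' <;> rcases mem_insert.1 hb with hb' | hb'
        · exact absurd (ha'.trans hb'.symm) hab
        · rw [ha']
          exact hall b hb'
        · rw [hb']
          exact (hall a ha').symm
        · exact hS.clq a ha' b hb' hab)
      have h5 := card_insert_of_notMem hyK
      rw [h2] at h5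
      omega
    have hst := stp V G v K hvK (fun a ha => mem_nb.1 (hS.sub ha)) (clique_of_cq hS.clq) (by
      intro X hX h5 hvX
      have hXc := cq_of_clique hX
      rcases hS.cs with ⟨-, h1⟩ | ⟨h4, hc, hmo⟩
      · have := gain_lt hp hXc h5 hvX
        omega
      · intro y hyX
        by_contra hy
        rw [mem_insert] at hy
        push Not at hy
        obtain ⟨hyv, hyK⟩ := hy
        have hyn : y ∈ nb G v := mem_nb.2 (hXc v hvX y hyX (Ne.symm hyv))
        have hnb : insert y K = nb G v := by
          apply eq_of_subset_of_card_le (insert_subset hyn hS.sub)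
          rw [card_insert_of_notMem hyK]
          exact hc
        refine hone h4 hmo y hyn hyK hc ?_
        -- `T = X \ {v, y}` is contained in `K`
        have hT : (X.erase v).erase y ⊆ K := by
          intro t ht
          rw [mem_erase, mem_erase] at ht
          have : t ∈ nb G v := mem_nb.2 (hXc v hvX t ht.2.2 (Ne.symm ht.2.1))
          rw [← hnb, mem_insert] at this
          exact this.resolve_left ht.1
        intro k hk
        by_cases hkX : k ∈ X
        · exact hXc y hyX k hkX (fun h => hyK (h ▸ hk))
        · refine closed_common hp hG (T := (X.erase v).erase y) ?_ ?_ (fun h => hyK (h ▸ hk)) ?_ ?_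
          · rw [card_erase_of_mem (mem_erase.2 ⟨hyv, hyX⟩), card_erase_of_mem hvX]
            omega
          · exact hS.clq.subset hT
          · intro t ht
            rw [mem_erase, mem_erase] at ht
            exact hXc y hyX t ht.2.2 (Ne.symm ht.1)
          · intro t ht
            refine hS.clq k hk t (hT ht) ?_
            rintro rfl
            rw [mem_erase, mem_erase] at ht
            exact hkX ht.2.2) (by
      intro h5 Y hY hKY hvY
      have hYc := cq_of_clique hY
      rcases hS.cs with ⟨h0, -⟩ | ⟨h4, hc, hmo⟩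
      · rw [h0] at h5
        simp at h5
      · apply Subset.antisymm _ hKY
        intro y hyY
        by_contra hyK
        have hall : ∀ k ∈ K, G.Adj y k := fun k hk =>
          hYc y hyY k (hKY hk) (fun h => hyK (h ▸ hk))
        have hvy : G.Adj v y := closed_common hp hG (T := K) (by omega) hS.clq
          (fun h => hvY (h ▸ hyY)) (fun t ht => mem_nb.1 (hS.sub ht)) hall
        exact hone h4 hmo y (mem_nb.2 hvy) hyK hc hall)
    have hcd := card_del G v
    have hle := card_le_card hS.sub
    rcases hS.cs with ⟨h0, h1⟩ | ⟨h4, hc, hmo⟩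
    · rw [h0, card_empty] at hst
      omega
    · omega

/-- `G` is closed in the generic rigidity matroid of `ℝ³`: adding any missing edge raises the rank
(by one). -/
def ClosedG (G : SimpleGraph V) : Prop :=
  ∀ u v, u ≠ v → ¬ G.Adj u v → genRank 3 (G ⊔ SimpleGraph.edge u v) = genRank 3 G + 1

theorem drs (hG : ClosedG G) {R : Finset V} (hR : R.Nonempty) (hclq : G.IsClique (R : Set V))
    (hdom : ∀ v, v ∉ R → ∃ r ∈ R, G.Adj v r) : (genRank 3 G : ℤ) = cval G := by
  obtain ⟨p, hp⟩ := exists_mg V 3
  have hGc : Closed G p := by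
    intro x y hxy hi
    by_contra hn
    have h1 := hG x y hxy hn
    have h2 := linked_of_imp hp hi
    unfold Linked at h2
    omega
  have h1 := nul_hub hp hR hGc (cq_of_clique hclq) hdom
  have h2 := cva V G
  have h3 := genRank_add hp G
  omega

end Pool.Agent.N423.HB
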