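import Mathlib
import Pool.Agent.N423.HB.Ind

/-!
# X-replacements which produce graphs with a dominating rigid subgraph

The counting lemmas at the beginning are those of helper647 (`MP_5e72fd_co.XClawFree`).
-/

set_option autoImplicit false
set_option linter.unusedSectionVars false

namespace Pool.Agent.N423.HB

open Matrix Finset Pool.Agent.H283R2.DR Pool.Agent.H789R5 Pool.Agent.N423.DE Pool.Agent.N423.DC
  Pool.Agent.N423.DT

namespace XR

/-- `G` is generically 3-independent: at some placement in `ℝ³` the rows of the rigidity matrix are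
linearly independent. -/
def Independent {V : Type} (G : SimpleGraph V) : Prop :=
  ∃ p : V → Fin 3 → ℝ, LinearIndependent ℝ (rigidityMatrix G p).row

/-- The X-replacement of `G`: delete the edges `ab` and `cd`, add the new vertex `none` and join it
to `a`, `b`, `c`, `d`, `e`. -/
def xrep {V : Type} (G : SimpleGraph V) (a b c d e : V) : SimpleGraph (Option V) :=
  SimpleGraph.fromRel fun x y =>
    (∃ u w, x = some u ∧ y = some w ∧ G.Adj u w ∧ s(u, w) ≠ s(a, b) ∧ s(u, w) ≠ s(c, d)) ∨
    (x = none ∧ ∃ u, (u = a ∨ u = b ∨ u = c ∨ u = d ∨ u = e) ∧ y = some u)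

theorem rank_le {V : Type} [Fintype V] (G : SimpleGraph V) (p : V → Fin 3 → ℝ) :
    (rigidityMatrix G p).rank ≤ genRank 3 G := by
  obtain ⟨p0, hp0⟩ := exists_mg V 3
  have h0 := genRank_add hp0 G
  have h2 := rank_add_mo G p
  have h3 := hp0.min G p
  omega

theorem indep_of_rank {V : Type} [Fintype V] (G : SimpleGraph V)
    (h : G.edgeSet.ncard ≤ genRank 3 G) : Independent G := by
  classical
  obtain ⟨p, hp⟩ := exists_mg V 3
  have e1 := genRank_add hp G
  have e2 := rank_add_mo G p
  refine ⟨p, ?_⟩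
  rw [linearIndependent_iff_card_le_finrank_span]
  have e5 : (rigidityMatrix G p).rank = (Set.range (rigidityMatrix G p).row).finrank ℝ :=
    Matrix.rank_eq_finrank_span_row _
  rw [← e5]
  have e6 : Fintype.card G.edgeSet = G.edgeSet.ncard := by
    rw [Set.ncard_eq_toFinset_card', Set.toFinset_card]
  omega

theorem rank_of_indep {V : Type} [Fintype V] (G : SimpleGraph V) (h : Independent G) :
    G.edgeSet.ncard ≤ genRank 3 (G.map (Function.Embedding.some : V ↪ Option V)) := by
  classical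
  obtain ⟨p, hp⟩ := h
  let p' : Option V → Fin 3 → ℝ := fun x => x.elim 0 p
  set G1 := G.map (Function.Embedding.some : V ↪ Option V) with hG1
  have hmem : ∀ e ∈ G.edgeSet, Sym2.map some e ∈ G1.edgeSet := by
    intro e he
    induction e using Sym2.ind with
    | _ x y =>
      rw [Sym2.map_mk, SimpleGraph.mem_edgeSet, hG1, SimpleGraph.map_adj]
      exact ⟨x, y, he, rfl, rfl⟩
  let φ : G.edgeSet → G1.edgeSet := fun e => ⟨Sym2.map some e.1, hmem e.1 e.2⟩
  let L : (Option V × Fin 3 → ℝ) →ₗ[ℝ] (V × Fin 3 → ℝ) :=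
    LinearMap.funLeft ℝ ℝ fun c => (some c.1, c.2)
  have hL : ∀ e : G.edgeSet, L ((rigidityMatrix G1 p').row (φ e)) = (rigidityMatrix G p).row e := by
    rintro ⟨e, he⟩
    induction e using Sym2.ind with
    | _ x y =>
      funext c
      show Pool.Agent.H789R5.row p' (some x) (some y) (some c.1, c.2) = Pool.Agent.H789R5.row p x y c
      unfold Pool.Agent.H789R5.row
      simp only [Option.some.injEq]
      rfl
  have h1 : LinearIndependent ℝ (fun e => (rigidityMatrix G1 p').row (φ e)) := by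
    apply LinearIndependent.of_comp L
    have : (L ∘ fun e => (rigidityMatrix G1 p').row (φ e)) = (rigidityMatrix G p).row :=
      funext hL
    rw [this]
    exact hp
  have h2 := finrank_span_eq_card h1
  have h3 : (rigidityMatrix G1 p').rank =
      Module.finrank ℝ (Submodule.span ℝ (Set.range (rigidityMatrix G1 p').row)) :=
    Matrix.rank_eq_finrank_span_row _
  have h4 : Submodule.span ℝ (Set.range fun e => (rigidityMatrix G1 p').row (φ e)) ≤
      Submodule.span ℝ (Set.range (rigidityMatrix G1 p').row) := by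
    apply Submodule.span_mono
    rintro _ ⟨e, rfl⟩
    exact ⟨φ e, rfl⟩
  have h5 := Submodule.finrank_mono h4
  have h6 := rank_le G1 p'
  have e6 : Fintype.card G.edgeSet = G.edgeSet.ncard := by
    rw [Set.ncard_eq_toFinset_card', Set.toFinset_card]
  omega

theorem card_xrep {V : Type} [Fintype V] (G : SimpleGraph V) {a b c d e : V}
    (hne : s(a, b) ≠ s(c, d)) (hab : G.Adj a b) (hcd : G.Adj c d) :
    (xrep G a b c d e).edgeSet.ncard ≤ G.edgeSet.ncard + 3 := by
  classical
  set A : Set (Sym2 (Option V)) := Sym2.map some '' (G.edgeSet \ {s(a, b), s(c, d)}) with hA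
  set B : Set (Sym2 (Option V)) := (fun u => s(none, some u)) '' ({a, b, c, d, e} : Set V) with hB
  have key : ∀ x y : Option V,
      ((∃ u w, x = some u ∧ y = some w ∧ G.Adj u w ∧ s(u, w) ≠ s(a, b) ∧ s(u, w) ≠ s(c, d)) ∨
      (x = none ∧ ∃ u, (u = a ∨ u = b ∨ u = c ∨ u = d ∨ u = e) ∧ y = some u)) →
      s(x, y) ∈ A ∪ B := by
    rintro x y (⟨u, w, rfl, rfl, h1, h2, h3⟩ | ⟨rfl, u, hu, rfl⟩)
    · left
      refine ⟨s(u, w), ⟨h1, ?_⟩, rfl⟩
      rintro (h | h)
      · exact h2 h
      · exact h3 h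
    · right
      exact ⟨u, hu, rfl⟩
  have hsub : (xrep G a b c d e).edgeSet ⊆ A ∪ B := by
    intro z hz
    induction z using Sym2.ind with
    | _ x y =>
      rw [SimpleGraph.mem_edgeSet, xrep, SimpleGraph.fromRel_adj] at hz
      rcases hz.2 with h | h
      · exact key x y h
      · rw [Sym2.eq_swap]
        exact key y x h
  have h1 := Set.ncard_le_ncard hsub (Set.toFinite _)
  have h2 := Set.ncard_union_le A B
  have h3 : A.ncard ≤ (G.edgeSet \ {s(a, b), s(c, d)}).ncard :=
    Set.ncard_image_le (Set.toFinite _)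
  have h4 : (G.edgeSet \ {s(a, b), s(c, d)}).ncard + 2 = G.edgeSet.ncard := by
    rw [← Set.ncard_pair hne]
    refine Set.ncard_sdiff_add_ncard_of_subset ?_ (Set.toFinite _)
    rintro z (rfl | rfl)
    · exact hab
    · exact hcd
  have h5 : B.ncard ≤ ({a, b, c, d, e} : Set V).ncard := Set.ncard_image_le (Set.toFinite _)
  have h6 : ({a, b, c, d, e} : Set V).ncard ≤ 5 := by
    have i1 := Set.ncard_insert_le a ({b, c, d, e} : Set V)
    have i2 := Set.ncard_insert_le b ({c, d, e} : Set V)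
    have i3 := Set.ncard_insert_le c ({d, e} : Set V)
    have i4 := Set.ncard_insert_le d ({e} : Set V)
    have i5 := Set.ncard_singleton e
    omega
  omega


end XR

section core

variable {V : Type} [Fintype V] [DecidableEq V] {p : V → Fin 3 → ℝ}

/-- implied edges of the closure are in complete graphs with five vertices -/
theorem k5_hub (hp : MG p) {G : SimpleGraph V} {R : Finset V} (hR : R.Nonempty) (h : LHub G R)
    {v y : V} (hvy : (cl G p).Adj v y) (hi : Imp (del (cl G p) v y) p v y) :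
    ∃ A : Finset V, A.card = 5 ∧ Cq (cl G p) A ∧ v ∈ A ∧ y ∈ A := by
  set C := cl G p with hC
  have hCc : Closed C p := closed_cl G p
  have hmot : ∀ q, IsMotion (del C v y) p q → IsMotion C p q := fun q hq => TMIN.mot_del hi hq
  have hCD : ∀ a b, a ≠ b → C.Adj a b → Linked 3 (del C v y) a b := by
    intro a b hab hadj
    apply linked_of_imp hp
    intro q hq
    exact hmot q hq a b hadj
  have hGC : ∀ a b, a ≠ b → Linked 3 G a b → C.Adj a b := fun a b hab hl =>
    ⟨hab, imp_of_linked hp hab hl⟩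
  have hLH : LHub (del C v y) R := by
    refine ⟨fun a ha b hb hab => hCD a b hab (hGC a b hab (h.1 a ha b hb hab)), fun w hw => ?_⟩
    obtain ⟨r, hr, hl⟩ := h.2 w hw
    have hne : w ≠ r := fun e => hw (e ▸ hr)
    exact ⟨r, hr, hCD w r hne (hGC w r hne hl)⟩
  obtain ⟨A, hA, hv, hy, hAl⟩ := five t_seq hp hR hLH hvy.ne (hCD v y hvy.ne hvy) (by
    rw [TMIN.del_adj]
    exact fun h => h.2 rfl)
  refine ⟨A, hA, ?_, hv, hy⟩
  intro a ha b hb hab
  exact hCc a b hab ((imp_of_linked hp hab (hAl a ha b hb hab)).mono (TMIN.del_le C v y))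

/-- the core of the theorem on X-replacements -/
theorem xrc (hp : MG p) {G : SimpleGraph V} {R : Finset V} (hR : R.Nonempty) (h : LHub G R)
    {v a b c d e : V} (hn : [v, a, b, c, d, e].Nodup) (ha : G.Adj v a) (hb : G.Adj v b)
    (hc : G.Adj v c) (hd : G.Adj v d) (he : G.Adj v e)
    (hH : mo (G.deleteIncidenceSet v ⊔ SimpleGraph.edge a b ⊔ SimpleGraph.edge c d) p + 2 ≤
      mo (G.deleteIncidenceSet v) p) :
    mo G p + 5 ≤ mo (G.deleteIncidenceSet v) p := by
  by_contra hlt
  simp only [List.nodup_cons, List.mem_cons, List.not_mem_nil, or_false, not_or, not_false_eq_true,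
    List.nodup_nil, and_true] at hn
  obtain ⟨⟨hva, hvb, hvc, hvd, hve⟩, ⟨hab, hac, had, hae⟩, ⟨hbc, hbd, hbe⟩, ⟨hcd, hce⟩, hde⟩ := hn
  set H := G.deleteIncidenceSet v with hHd
  set C := cl G p with hC
  have hCc : Closed C p := closed_cl G p
  have hGC : G ≤ C := le_cl G p
  have hmC : mo C p = mo G p := mo_cl G p
  have hHC : H ≤ C.deleteIncidenceSet v := del_mono hGC v
  have h1 := mo_anti hHC p
  have h5 : 5 ≤ (nb C v).card := by
    have : ({a, b, c, d, e} : Finset V) ⊆ nb C v := by
      intro z hz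
      simp only [mem_insert, mem_singleton] at hz
      rw [mem_nb]
      rcases hz with rfl | rfl | rfl | rfl | rfl
      · exact hGC ha
      · exact hGC hb
      · exact hGC hc
      · exact hGC hd
      · exact hGC he
    refine le_trans ?_ (card_le_card this)
    rw [card_insert_of_notMem, card_insert_of_notMem, card_insert_of_notMem, card_pair hde]
    · simp [hcd, hce]
    · simp [hbc, hbd, hbe]
    · simp [hab, hac, had, hae]
  obtain ⟨y, hy, hyc⟩ := tgn4 (ttwo timg tx2) V C p hp hCc v h5 (by omega)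
    (fun y hy hi => k5_hub hp hR h hy hi)
  have e3 := ext3 hp C (v := v) (by omega)
  -- adding one edge
  have s1 : ∀ (F : SimpleGraph V) (x z : V), mo F p ≤ mo (F ⊔ SimpleGraph.edge x z) p + 1 := by
    intro F x z
    refine (mo_le_add (G := F) (G' := F ⊔ SimpleGraph.edge x z) p).trans (Nat.add_le_add_left ?_ _)
    have : (F ⊔ SimpleGraph.edge x z).edgeSet \ F.edgeSet ⊆ {s(x, z)} := by
      intro f hf
      induction f using Sym2.ind with
      | _ u w =>
        rw [Set.mem_sdiff, SimpleGraph.mem_edgeSet, SimpleGraph.mem_edgeSet, SimpleGraph.sup_adj,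
          SimpleGraph.edge_adj] at hf
        rcases hf.1 with h | ⟨⟨rfl, rfl⟩ | ⟨rfl, rfl⟩, -⟩
        · exact absurd h hf.2
        · rfl
        · exact Sym2.eq_swap
    exact (Set.ncard_le_ncard this (Set.toFinite _)).trans (by rw [Set.ncard_singleton])
  have hin : ∀ x z, C.Adj x z → x ≠ v → z ≠ v → ∀ F, F ≤ C.deleteIncidenceSet v →
      F ⊔ SimpleGraph.edge x z ≤ C.deleteIncidenceSet v := by
    intro x z hxz hx hz F hF
    refine sup_le hF ?_
    intro u w huw
    rw [SimpleGraph.edge_adj] at huw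
    rw [SimpleGraph.deleteIncidenceSet_adj]
    rcases huw.1 with ⟨rfl, rfl⟩ | ⟨rfl, rfl⟩
    · exact ⟨hxz, hx, hz⟩
    · exact ⟨hxz.symm, hz, hx⟩
  have t1 := s1 (H ⊔ SimpleGraph.edge a b) c d
  have t2 := s1 (H ⊔ SimpleGraph.edge c d) a b
  have e1 : H ⊔ SimpleGraph.edge c d ⊔ SimpleGraph.edge a b =
      H ⊔ SimpleGraph.edge a b ⊔ SimpleGraph.edge c d := sup_right_comm _ _ _
  rw [e1] at t2
  have hna := mem_nb.2 (hGC ha)
  have hnb := mem_nb.2 (hGC hb)
  have hnc := mem_nb.2 (hGC hc)
  have hnd := mem_nb.2 (hGC hd)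
  -- the gain is three
  have hgain : mo (C.deleteIncidenceSet v) p ≤ mo C p + 3 := by
    by_cases hya : y = a ∨ y = b
    · have hcy : c ≠ y := by rcases hya with rfl | rfl; exacts [Ne.symm hac, Ne.symm hbc]
      have hdy : d ≠ y := by rcases hya with rfl | rfl; exacts [Ne.symm had, Ne.symm hbd]
      have hC1 := hyc c (mem_erase.2 ⟨hcy, hnc⟩) d (mem_erase.2 ⟨hdy, hnd⟩) hcd
      have := mo_anti (hin c d hC1 (Ne.symm hvc) (Ne.symm hvd) H hHC) p
      omega
    · push Not at hya
      have hC1 := hyc a (mem_erase.2 ⟨Ne.symm hya.1, hna⟩) b (mem_erase.2 ⟨Ne.symm hya.2, hnb⟩) hab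
      have := mo_anti (hin a b hC1 (Ne.symm hva) (Ne.symm hvb) H hHC) p
      omega
  have hcq := caseB hp (by norm_num) hCc (v := v) (by omega) hgain
  have := mo_anti (hin c d (hcq c hnc d hnd hcd) (Ne.symm hvc) (Ne.symm hvd) _
    (hin a b (hcq a hna b hnb hab) (Ne.symm hva) (Ne.symm hvb) H hHC)) p
  omega

end core

open XR in
/-- X-replacements -/
theorem xr (V : Type) [Fintype V] (G : SimpleGraph V) (a b c d e : V)
    (hne : [a, b, c, d, e].Nodup) (hab : G.Adj a b) (hcd : G.Adj c d) (hG : Independent G)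
    (R : Finset (Option V)) (hR : R.Nonempty) (h : LHub (xrep G a b c d e) R) :
    Independent (xrep G a b c d e) := by
  classical
  obtain ⟨p, hp⟩ := exists_mg (Option V) 3
  set G' := xrep G a b c d e with hG'
  set G1 := G.map (Function.Embedding.some : V ↪ Option V) with hG1
  have hn := hne
  simp only [List.nodup_cons, List.mem_cons, List.not_mem_nil, or_false, not_or, not_false_eq_true,
    List.nodup_nil, and_true] at hn
  obtain ⟨⟨nab, nac, nad, nae⟩, ⟨nbc, nbd, nbe⟩, ⟨ncd, nce⟩, nde⟩ := hn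
  have hs : s(a, b) ≠ s(c, d) := by
    intro h
    rcases Sym2.eq_iff.1 h with ⟨h, -⟩ | ⟨h, -⟩
    · exact nac h
    · exact nad h
  apply indep_of_rank
  refine (card_xrep G hs hab hcd).trans ?_
  have r1 := rank_of_indep G hG
  have r2 := genRank_add hp G1
  have r3 := genRank_add hp G'
  rw [← hG1] at r1
  have hadjN : ∀ u, (u = a ∨ u = b ∨ u = c ∨ u = d ∨ u = e) → G'.Adj none (some u) := by
    intro u hu
    rw [hG', xrep, SimpleGraph.fromRel_adj]
    exact ⟨by simp, Or.inl (Or.inr ⟨rfl, u, hu, rfl⟩)⟩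
  have hadjS : ∀ u w, G'.Adj (some u) (some w) ↔ (G.Adj u w ∧ s(u, w) ≠ s(a, b) ∧
      s(u, w) ≠ s(c, d)) := by
    intro u w
    rw [hG', xrep, SimpleGraph.fromRel_adj]
    constructor
    · rintro ⟨-, (⟨u', w', h1, h2, h3⟩ | ⟨h1, -⟩) | (⟨u', w', h1, h2, h3⟩ | ⟨h1, -⟩)⟩
      · rw [Option.some.injEq] at h1 h2
        subst h1 h2
        exact h3
      · cases h1
      · rw [Option.some.injEq] at h1 h2
        subst h1 h2
        exact ⟨h3.1.symm, by rw [Sym2.eq_swap]; exact h3.2.1, by rw [Sym2.eq_swap]; exact h3.2.2⟩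
      · cases h1
    · intro h
      exact ⟨fun h' => h.1.ne (Option.some.inj h'), Or.inl (Or.inl ⟨u, w, rfl, rfl, h⟩)⟩
  set H := G'.deleteIncidenceSet none with hH
  have hHadj : ∀ x y, H.Adj x y ↔ ∃ u w, x = some u ∧ y = some w ∧ G.Adj u w ∧
      s(u, w) ≠ s(a, b) ∧ s(u, w) ≠ s(c, d) := by
    intro x y
    rw [hH, SimpleGraph.deleteIncidenceSet_adj]
    constructor
    · rintro ⟨h1, hx, hy⟩
      obtain ⟨u, rfl⟩ := Option.ne_none_iff_exists'.1 hx
      obtain ⟨w, rfl⟩ := Option.ne_none_iff_exists'.1 hy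
      exact ⟨u, w, rfl, rfl, (hadjS u w).1 h1⟩
    · rintro ⟨u, w, rfl, rfl, h1⟩
      exact ⟨(hadjS u w).2 h1, by simp, by simp⟩
  -- `H` with the two edges contains the graph `G1`
  have hG1le : G1 ≤ H ⊔ SimpleGraph.edge (some a) (some b) ⊔
      SimpleGraph.edge (some c) (some d) := by
    intro x y hxy
    rw [hG1, SimpleGraph.map_adj] at hxy
    obtain ⟨u, w, huw, rfl, rfl⟩ := hxy
    rw [SimpleGraph.sup_adj, SimpleGraph.sup_adj, SimpleGraph.edge_adj, SimpleGraph.edge_adj]
    by_cases h1 : s(u, w) = s(a, b)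
    · left; right
      rcases Sym2.eq_iff.1 h1 with ⟨rfl, rfl⟩ | ⟨rfl, rfl⟩
      · exact ⟨Or.inl ⟨rfl, rfl⟩, fun h => huw.ne (Option.some.inj h)⟩
      · exact ⟨Or.inr ⟨rfl, rfl⟩, fun h => huw.ne (Option.some.inj h)⟩
    by_cases h2 : s(u, w) = s(c, d)
    · right
      rcases Sym2.eq_iff.1 h2 with ⟨rfl, rfl⟩ | ⟨rfl, rfl⟩
      · exact ⟨Or.inl ⟨rfl, rfl⟩, fun h => huw.ne (Option.some.inj h)⟩
      · exact ⟨Or.inr ⟨rfl, rfl⟩, fun h => huw.ne (Option.some.inj h)⟩
    · left; left
      exact (hHadj _ _).2 ⟨u, w, rfl, rfl, huw, h1, h2⟩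
  have m1 := mo_anti hG1le p
  -- the number of edges of `H`
  have hHc : H.edgeSet.ncard + 2 ≤ G.edgeSet.ncard := by
    have k1 : H.edgeSet ⊆ Sym2.map some '' (G.edgeSet \ {s(a, b), s(c, d)}) := by
      intro z hz
      induction z using Sym2.ind with
      | _ x y =>
        obtain ⟨u, w, rfl, rfl, h1, h2, h3⟩ := (hHadj x y).1 hz
        refine ⟨s(u, w), ⟨h1, ?_⟩, rfl⟩
        rintro (h | h)
        · exact h2 h
        · exact h3 h
    have k2 := (Set.ncard_le_ncard k1 (Set.toFinite _)).trans (Set.ncard_image_le (Set.toFinite _))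
    have h4 : (G.edgeSet \ {s(a, b), s(c, d)}).ncard + 2 = G.edgeSet.ncard := by
      rw [← Set.ncard_pair hs]
      refine Set.ncard_sdiff_add_ncard_of_subset ?_ (Set.toFinite _)
      rintro z (rfl | rfl)
      · exact hab
      · exact hcd
    omega
  have m2 := mo_lower H p
  have hx := xrc hp hR h (v := none) (a := some a) (b := some b) (c := some c) (d := some d)
    (e := some e) (by simp [nab, nac, nad, nae, nbc, nbd, nbe, ncd, nce, nde])
    (hadjN a (by simp)) (hadjN b (by simp)) (hadjN c (by simp)) (hadjN d (by simp))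
    (hadjN e (by simp)) (by rw [← hH]; omega)
  rw [← hH] at hx
  -- `mo H` is at most `mo G1 + 2`
  have m3 : mo H p ≤ mo G1 p + 2 := by
    have hle : H ≤ G1 := by
      intro x y hxy
      obtain ⟨u, w, rfl, rfl, h1, -⟩ := (hHadj x y).1 hxy
      rw [hG1, SimpleGraph.map_adj]
      exact ⟨u, w, h1, rfl, rfl⟩
    refine (mo_le_add (G := H) (G' := G1) p).trans (Nat.add_le_add_left ?_ _)
    have k1 : G1.edgeSet \ H.edgeSet ⊆ {s(some a, some b), s(some c, some d)} := by
      intro z hz
      induction z using Sym2.ind with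
      | _ x y =>
        obtain ⟨hz1, hz2⟩ := hz
        rw [SimpleGraph.mem_edgeSet, hG1, SimpleGraph.map_adj] at hz1
        obtain ⟨u, w, huw, rfl, rfl⟩ := hz1
        by_contra hno
        apply hz2
        rw [Set.mem_insert_iff, Set.mem_singleton_iff] at hno
        push Not at hno
        refine (hHadj _ _).2 ⟨u, w, rfl, rfl, huw, ?_, ?_⟩
        · intro h1
          apply hno.1
          rcases Sym2.eq_iff.1 h1 with ⟨rfl, rfl⟩ | ⟨rfl, rfl⟩
          · rfl
          · exact Sym2.eq_swap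
        · intro h1
          apply hno.2
          rcases Sym2.eq_iff.1 h1 with ⟨rfl, rfl⟩ | ⟨rfl, rfl⟩
          · rfl
          · exact Sym2.eq_swap
    exact (Set.ncard_le_ncard k1 (Set.toFinite _)).trans (Set.ncard_insert_le _ _ |>.trans (by
      rw [Set.ncard_singleton]))
  omega

end Pool.Agent.N423.HB
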