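import Mathlib
import Pool.Agent.N423.HB.Drs
import Pool.Agent.N423.HB.XR
import Pool.Agent.N423.HB.StmX

/-!
# Seven-connected graphs with a dominating clique
-/

set_option autoImplicit false
set_option linter.unusedSectionVars false

namespace Pool.Agent.N423.HB

open Matrix Finset Pool.Agent.H283R2.DR Pool.Agent.H789R5 Pool.Agent.N423.DE Pool.Agent.N423.DC
  Pool.Agent.N423.DT

/-- `G` is not separated by fewer than seven vertices -/
def Con7 {V : Type} (G : SimpleGraph V) : Prop :=
  ∀ S A B : Finset V, (∀ v, v ∈ S ∨ v ∈ A ∨ v ∈ B) → A.Nonempty → B.Nonempty →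
    Disjoint S A → Disjoint S B → Disjoint A B → (∀ a ∈ A, ∀ b ∈ B, ¬ G.Adj a b) → 7 ≤ S.card

variable {V : Type} [Fintype V] {p : V → Fin 3 → ℝ} {G : SimpleGraph V} {v : V}

theorem ng_eq (G : SimpleGraph V) (v : V) : ng G v = nb G v := by
  ext z
  rw [mem_nb]
  unfold ng
  simp

/-- a clique is in a maximal clique -/
theorem exists_max_clique {X : Finset V} (hX : G.IsClique (X : Set V)) :
    ∃ R : Finset V, G.IsClique (R : Set V) ∧ X ⊆ R ∧
      ∀ Y : Finset V, G.IsClique (Y : Set V) → R ⊆ Y → Y = R := by
  classical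
  obtain ⟨R, hR, hmax⟩ := Finset.exists_max_image
    (univ.filter fun Y : Finset V => G.IsClique (Y : Set V) ∧ X ⊆ Y) Finset.card
    ⟨X, by simp [hX]⟩
  rw [mem_filter] at hR
  refine ⟨R, hR.2.1, hR.2.2, fun Y hY hRY => ?_⟩
  exact (eq_of_subset_of_card_le hRY (hmax Y (by
    rw [mem_filter]
    exact ⟨mem_univ _, hY, hR.2.2.trans hRY⟩))).symm

/-- two different maximal cliques of a closed graph have at most two common vertices -/
theorem int_le (hp : MG p) (hG : Closed G p) {X R : Finset V} [DecidableEq V]
    (hX : G.IsClique (X : Set V)) (hXm : ∀ Y : Finset V, G.IsClique (Y : Set V) → X ⊆ Y → Y = X)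
    (hR : G.IsClique (R : Set V)) (hRm : ∀ Y : Finset V, G.IsClique (Y : Set V) → R ⊆ Y → Y = R)
    (hne : X ≠ R) : (X ∩ R).card ≤ 2 := by
  by_contra hc
  push Not at hc
  have hXc := cq_of_clique hX
  have hRc := cq_of_clique hR
  have hu : G.IsClique ((X ∪ R : Finset V) : Set V) := by
    apply clique_of_cq
    have key : ∀ a ∈ X, ∀ b ∈ R, a ≠ b → G.Adj a b := by
      intro a ha b hb hab
      by_cases haR : a ∈ R
      · exact hRc a haR b hb hab
      by_cases hbX : b ∈ X
      · exact hXc a ha b hbX hab
      refine closed_common hp hG (T := X ∩ R) hc (hXc.subset inter_subset_left) hab ?_ ?_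
      · intro t ht
        rw [mem_inter] at ht
        exact hXc a ha t ht.1 (fun h => haR (h ▸ ht.2))
      · intro t ht
        rw [mem_inter] at ht
        exact hRc b hb t ht.2 (fun h => hbX (h ▸ ht.1))
    intro a ha b hb hab
    rcases mem_union.1 ha with ha' | ha' <;> rcases mem_union.1 hb with hb' | hb'
    · exact hXc a ha' b hb' hab
    · exact key a ha' b hb' hab
    · exact (key b hb' a ha' hab.symm).symm
    · exact hRc a ha' b hb' hab
  exact hne ((hXm _ hu subset_union_left).symm.trans (hRm _ hu subset_union_right))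

theorem cond3 (hp : MG p) (hG : Closed G p) [DecidableEq V] (v : V) {X : Finset V}
    (hX : X ∈ mc5 G) (hvX : v ∈ X) (h6 : 6 ≤ X.card) {Y : Finset V} (hY : G.IsClique (Y : Set V))
    (hXY : X.erase v ⊆ Y) (hvY : v ∉ Y) : Y = X.erase v := by
  classical
  unfold mc5 at hX
  rw [mem_filter] at hX
  obtain ⟨-, h5, hXcl, hXm⟩ := hX
  obtain ⟨R, hR, hYR, hRm⟩ := exists_max_clique hY
  by_cases he : X = R
  · apply Subset.antisymm _ hXY
    intro y hy
    rw [mem_erase]
    exact ⟨fun h => hvY (h ▸ hy), he ▸ hYR hy⟩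
  · have h1 := int_le hp hG hXcl hXm hR hRm he
    have h2 : X.erase v ⊆ X ∩ R := fun x hx =>
      mem_inter.2 ⟨mem_of_mem_erase hx, hYR (hXY hx)⟩
    have h3 := card_le_card h2
    rw [card_erase_of_mem hvX] at h3
    omega

theorem nul_h0 (p : V → Fin 3 → ℝ) : mo (⊥ : SimpleGraph V) p + (⊥ : SimpleGraph V).edgeSet.ncard =
    3 * Fintype.card V + nul (⊥ : SimpleGraph V) := by
  have h1 := mo_lower (⊥ : SimpleGraph V) p
  have h2 := mo_le (⊥ : SimpleGraph V) p
  have h3 : nul (⊥ : SimpleGraph V) = 0 := by
    classical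
    unfold nul
    apply Finset.sum_eq_zero
    intro X hX
    unfold mc5 at hX
    rw [mem_filter] at hX
    obtain ⟨a, ha, b, hb, hab⟩ := one_lt_card.1 (show 1 < X.card by have := hX.2.1; omega)
    exact absurd (hX.2.2.1 (by exact_mod_cast ha) (by exact_mod_cast hb) hab) (by simp)
  simp only [SimpleGraph.edgeSet_bot, Set.ncard_empty, add_zero] at h1 ⊢
  omega

theorem nul_step (hp : MG p) [DecidableEq V] : ∀ (G : SimpleGraph V) (v : V) (K : Finset V),
    Closed G p → SD p G v K →
    mo (G.deleteIncidenceSet v) p + (G.deleteIncidenceSet v).edgeSet.ncard =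
      3 * Fintype.card V + nul (G.deleteIncidenceSet v) →
    mo G p + G.edgeSet.ncard = 3 * Fintype.card V + nul G := by
  intro G v K hG hS ih
  have hvK : v ∉ K := fun h => not_mem_nb G v (hS.sub h)
  -- the neighbours are a clique only if they are `K`
  have hone : 4 ≤ K.card → mo (G.deleteIncidenceSet v) p + K.card = mo G p + 3 + (nb G v).card →
      ∀ y ∈ nb G v, y ∉ K → (nb G v).card ≤ K.card + 1 → ¬ ∀ k ∈ K, G.Adj y k := by
    intro h4 hmo y hy hyK hc hall
    have h1 : insert y K ⊆ nb G v := insert_subset hy hS.sub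
    have h2 : insert y K = nb G v := by
      apply eq_of_subset_of_card_le h1
      rw [card_insert_of_notMem hyK]
      exact hc
    have h3 := gain_clique hp (G := G) (v := v) (by
      rw [← h2]
      intro a ha b hb hab
      rcases mem_insert.1 ha with ha' | ha' <;> rcases mem_insert.1 hb with hb' | hb'
      · exact absurd (ha'.trans hb'.symm) hab
      · rw [ha']
        exact hall b hb'
      · rw [hb']
        exact (hall a ha').symm
      · exact hS.clq a ha' b hb' hab)
    have h5 := card_insert_of_notMem hyK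
    rw [h2] at h5
    omega
  have hst := stp V G v K hvK (fun a ha => mem_nb.1 (hS.sub ha)) (clique_of_cq hS.clq) (by
    intro X hX h5 hvX
    have hXc := cq_of_clique hX
    rcases hS.cs with ⟨-, h1⟩ | ⟨h4, hc, hmo⟩
    · have := gain_lt hp hXc h5 hvX
      omega
    · intro y hyX
      by_contra hy
      rw [mem_insert] at hy
      push Not at hy
      obtain ⟨hyv, hyK⟩ := hy
      have hyn : y ∈ nb G v := mem_nb.2 (hXc v hvX y hyX (Ne.symm hyv))
      have hnb : insert y K = nb G v := by
        apply eq_of_subset_of_card_le (insert_subset hyn hS.sub)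
        rw [card_insert_of_notMem hyK]
        exact hc
      refine hone h4 hmo y hyn hyK hc ?_
      -- `T = X \ {v, y}` is contained in `K`
      have hT : (X.erase v).erase y ⊆ K := by
        intro t ht
        rw [mem_erase, mem_erase] at ht
        have : t ∈ nb G v := mem_nb.2 (hXc v hvX t ht.2.2 (Ne.symm ht.2.1))
        rw [← hnb, mem_insert] at this
        exact this.resolve_left ht.1
      intro k hk
      by_cases hkX : k ∈ X
      · exact hXc y hyX k hkX (fun h => hyK (h ▸ hk))
      · refine closed_common hp hG (T := (X.erase v).erase y) ?_ ?_ (fun h => hyK (h ▸ hk)) ?_ ?_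
        · rw [card_erase_of_mem (mem_erase.2 ⟨hyv, hyX⟩), card_erase_of_mem hvX]
          omega
        · exact hS.clq.subset hT
        · intro t ht
          rw [mem_erase, mem_erase] at ht
          exact hXc y hyX t ht.2.2 (Ne.symm ht.1)
        · intro t ht
          refine hS.clq k hk t (hT ht) ?_
          rintro rfl
          rw [mem_erase, mem_erase] at ht
          exact hkX ht.2.2) (by
    intro h5 Y hY hKY hvY
    have hYc := cq_of_clique hY
    rcases hS.cs with ⟨h0, -⟩ | ⟨h4, hc, hmo⟩
    · rw [h0] at h5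
      simp at h5
    · apply Subset.antisymm _ hKY
      intro y hyY
      by_contra hyK
      have hall : ∀ k ∈ K, G.Adj y k := fun k hk =>
        hYc y hyY k (hKY hk) (fun h => hyK (h ▸ hk))
      have hvy : G.Adj v y := closed_common hp hG (T := K) (by omega) hS.clq
        (fun h => hvY (h ▸ hyY)) (fun t ht => mem_nb.1 (hS.sub ht)) hall
      exact hone h4 hmo y (mem_nb.2 hvy) hyK hc hall)
  have hcd := card_del G v
  have hle := card_le_card hS.sub
  rcases hS.cs with ⟨h0, h1⟩ | ⟨h4, hc, hmo⟩
  · rw [h0, card_empty] at hst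
    omega
  · omega

/-- the nullity formula without a vertex -/
theorem nul_del (hp : MG p) [DecidableEq V] {R : Finset V} (hR : 2 ≤ R.card) (hG : Closed G p)
    (hclq : Cq G R) (hdom : ∀ v, v ∉ R → ∃ r ∈ R, G.Adj v r) (hv : v ∉ R) :
    mo (G.deleteIncidenceSet v) p + (G.deleteIncidenceSet v).edgeSet.ncard =
      3 * Fintype.card V + nul (G.deleteIncidenceSet v) := by
  have hc := closed_del hp (by norm_num) hG v
  by_cases h3 : 3 ≤ R.card
  · have hD : Dom G R Rᶜ := by
      refine ⟨fun x hx h => (mem_compl.1 h) hx, h3, hclq, ?_, fun v hv => hdom v (mem_compl.1 hv)⟩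
      intro x y _
      by_cases hx : x ∈ R
      · exact Or.inl hx
      · exact Or.inr (mem_compl.2 hx)
    exact dom_ind (P := fun H => mo H p + H.edgeSet.ncard = 3 * Fintype.card V + nul H) hp
      (nul_h0 p) (nul_step hp) R _ (Rᶜ.erase v) rfl _ hc (hD.delV (mem_compl.2 hv))
  · have hh : Hub 3 G R univ := by
      refine ⟨by omega, subset_univ R, fun _ _ _ => mem_univ _, hclq, ?_⟩
      intro v _ hv
      obtain ⟨r, hr, h⟩ := hdom v hv
      refine ⟨{r}, singleton_subset_iff.2 hr, by simp, ?_⟩
      intro r' hr'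
      rw [mem_singleton] at hr'
      subst hr'
      exact h
    exact pair_ind (P := fun H => mo H p + H.edgeSet.ncard = 3 * Fintype.card V + nul H) hp
      (nul_h0 p) (nul_step hp) (R := R) _ (univ.erase v) rfl _ hc (hh.del hv)

/-- `gg` is the gain -/
theorem gg_eq (h3 : S_C3) (hp : MG p) (hG : Closed G p) {R : Finset V} (hR : 2 ≤ R.card)
    (hclq : Cq G R) (hdom : ∀ v, v ∉ R → ∃ r ∈ R, G.Adj v r) (hv : v ∉ R) :
    gg G v = (mo (G.deleteIncidenceSet v) p : ℤ) - mo G p := by
  classical
  have h1 := nul_hub hp (card_pos.1 (by omega)) hG hclq hdom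
  have h2 := nul_del hp hR hG hclq hdom hv
  have h4 := h3 V G v (fun X hX hvX h6 Y hY hXY hvY => cond3 hp hG v hX hvX h6 hY hXY hvY)
  have h5 := card_del G v
  unfold gg
  rw [ng_eq]
  have h6 : ∑ X ∈ (mc5 G).filter (fun X => v ∈ X), ((X.card : ℤ) - 4) =
      ((∑ X ∈ (mc5 G).filter (fun X => v ∈ X), (X.card - 4) : ℕ) : ℤ) := by
    rw [Nat.cast_sum]
    apply Finset.sum_congr rfl
    intro X hX
    rw [mem_filter] at hX
    have : 5 ≤ X.card := by
      have := hX.1
      unfold mc5 at this
      rw [mem_filter] at this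
      exact this.2.1
    omega
  rw [h6]
  omega

/-- removing fewer than `k` vertices always leaves a (nonempty) connected graph -/
def KConnected {V : Type} (k : ℕ) (G : SimpleGraph V) : Prop :=
  ∀ S : Finset V, S.card < k → (G.induce (S : Set V)ᶜ).Connected

theorem con7_of {V : Type} {G : SimpleGraph V} (h : KConnected 7 G) : Con7 G := by
  intro S A B hAB hA hB hSA hSB hd hno
  obtain ⟨a0, ha0⟩ := hA
  obtain ⟨b0, hb0⟩ := hB
  by_contra hcon
  have ha0' : a0 ∈ (S : Set V)ᶜ := fun h' => Finset.disjoint_left.1 hSA h' ha0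
  have hb0' : b0 ∈ (S : Set V)ᶜ := fun h' => Finset.disjoint_left.1 hSB h' hb0
  have h1 : ∀ x y : ((S : Set V)ᶜ : Set V), (G.induce (S : Set V)ᶜ).Reachable x y →
      (x : V) ∈ A → (y : V) ∈ A := by
    rintro x y ⟨w⟩
    induction w with
    | nil => exact id
    | @cons x y z hxy _ ih =>
      intro hx
      apply ih
      rcases hAB y with h' | h' | h'
      · exact absurd h' y.2
      · exact h'
      · exact absurd (show G.Adj (x : V) (y : V) from hxy) (hno _ hx _ h')
  have h2 := h1 ⟨a0, ha0'⟩ ⟨b0, hb0'⟩ ((h S (by omega)).preconnected _ _) ha0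
  exact Finset.disjoint_left.1 hd h2 hb0

/-- **Seven-connected graphs with a dominating clique are rigid.** -/
theorem seven (h1 : S_C1x) (h2 : S_C2x) (h3 : S_C3) (V : Type) [Fintype V] (G : SimpleGraph V)
    (hV : 3 ≤ Fintype.card V) (hcon : Con7 G) (R0 : Finset V) (hR0 : R0.Nonempty)
    (h : LHub G R0) : GenRigid 3 G := by
  classical
  obtain ⟨p, hp⟩ := exists_mg V 3
  rw [genRigid_iff hp hV, ← mo_cl G p]
  set C := cl G p with hC
  have hCc : Closed C p := closed_cl G p
  have hGC : G ≤ C := le_cl G p
  have hconC : Con7 C := fun S A B h1 h2 h3 h4 h5 h6 h7 =>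
    hcon S A B h1 h2 h3 h4 h5 h6 (fun a ha b hb hab => h7 a ha b hb (hGC hab))
  by_cases hcomp : ∀ a b, a ≠ b → C.Adj a b
  · have e : C = DE.cmp univ := by
      ext a b
      exact ⟨fun h => ⟨h.ne, mem_univ _, mem_univ _⟩, fun h => hcomp a b h.1⟩
    have h4 := mo_cmpR (R := (univ : Finset V)) (by rw [card_univ]; exact hV) hp
    rw [card_univ] at h4
    rw [e]
    omega
  push Not at hcomp
  obtain ⟨a, b, hab, hnab⟩ := hcomp
  have hV9 : 9 ≤ Fintype.card V := by
    have h4 := hconC (univ \ {a, b}) {a} {b} (by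
      intro v
      by_cases hva : v = a
      · right; left; rw [mem_singleton]; exact hva
      by_cases hvb : v = b
      · right; right; rw [mem_singleton]; exact hvb
      left
      simp [hva, hvb]) (singleton_nonempty _) (singleton_nonempty _)
      (by simp) (by simp) (by simpa using hab)
      (by
        intro x hx y hy
        rw [mem_singleton] at hx hy
        rw [hx, hy]
        exact hnab)
    rw [card_sdiff_of_subset (subset_univ _), card_pair hab, card_univ] at h4
    omega
  have hdeg : ∀ v, 7 ≤ (nb C v).card := by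
    intro v
    by_contra hc
    have hnv := not_mem_nb C v
    have hB : (insert v (nb C v))ᶜ.Nonempty := by
      rw [← card_pos, card_compl, card_insert_of_notMem hnv]
      omega
    have h4 := hconC (nb C v) {v} (insert v (nb C v))ᶜ (by
      intro w
      by_cases hw : w = v
      · right; left; rw [mem_singleton]; exact hw
      by_cases hw' : w ∈ nb C v
      · left; exact hw'
      right; right
      rw [mem_compl, mem_insert]
      push Not
      exact ⟨hw, hw'⟩) (singleton_nonempty _) hB (by simpa using hnv)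
      (by
        rw [disjoint_left]
        intro x hx hx'
        rw [mem_compl, mem_insert] at hx'
        exact hx' (Or.inr hx))
      (by
        rw [disjoint_left]
        intro x hx hx'
        rw [mem_singleton] at hx
        rw [mem_compl, mem_insert] at hx'
        exact hx' (Or.inl hx))
      (by
        intro x hx y hy hxy
        rw [mem_singleton] at hx
        subst hx
        rw [mem_compl, mem_insert] at hy
        exact hy (Or.inr (mem_nb.2 hxy)))
    omega
  -- the hub
  have hclq0 : Cq C R0 := fun x hx y hy hxy => ⟨hxy, imp_of_linked hp hxy (h.1 x hx y hy hxy)⟩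
  have hdom0 : ∀ v, v ∉ R0 → ∃ r ∈ R0, C.Adj v r := by
    intro v hv
    obtain ⟨r, hr, hvr⟩ := h.2 v hv
    have hne : v ≠ r := fun e => hv (e ▸ hr)
    exact ⟨r, hr, hne, imp_of_linked hp hne hvr⟩
  obtain ⟨R, hR, hR0R, hRm⟩ := exists_max_clique (clique_of_cq hclq0)
  have hdom : ∀ v, v ∉ R → ∃ r ∈ R, C.Adj v r := by
    intro v hv
    obtain ⟨r, hr, hvr⟩ := hdom0 v (fun h => hv (hR0R h))
    exact ⟨r, hR0R hr, hvr⟩
  have hR2 : 2 ≤ R.card := by
    by_contra hc
    obtain ⟨r, hr⟩ := hR0.mono hR0R
    obtain ⟨v, hv⟩ : ∃ v, v ≠ r := by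
      by_contra hno
      push Not at hno
      have : Fintype.card V ≤ 1 := Fintype.card_le_one_iff.2 fun a b => (hno a).trans (hno b).symm
      omega
    have hR1 : R = {r} := by
      rw [eq_comm]
      apply eq_of_subset_of_card_le (singleton_subset_iff.2 hr)
      rw [card_singleton]
      omega
    obtain ⟨r', hr', hvr⟩ := hdom v (by rw [hR1, mem_singleton]; exact hv)
    rw [hR1, mem_singleton] at hr'
    subst hr'
    have h4 := hRm {v, r'} (by
      apply clique_of_cq
      intro x hx y hy hxy
      rw [mem_insert, mem_singleton] at hx hy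
      rcases hx with hx | hx <;> rcases hy with hy | hy
      · exact absurd (hx.trans hy.symm) hxy
      · rw [hx, hy]
        exact hvr
      · rw [hx, hy]
        exact hvr.symm
      · exact absurd (hx.trans hy.symm) hxy) (by rw [hR1]; simp)
    have h5 := card_pair hv
    rw [h4] at h5
    omega
  have hggn : ∀ v, v ∉ R → gg C v = (mo (C.deleteIncidenceSet v) p : ℤ) - mo C p :=
    fun v hv => gg_eq h3 hp hCc hR2 (cq_of_clique hR) hdom hv
  have hmax5 : ∀ X : Finset V, X ∈ mc5 C → C.IsClique (X : Set V) ∧
      ∀ Y : Finset V, C.IsClique (Y : Set V) → X ⊆ Y → Y = X := by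
    intro X hX
    unfold mc5 at hX
    rw [mem_filter] at hX
    exact hX.2.2
  have hmem5 : ∀ X : Finset V, 5 ≤ X.card → C.IsClique (X : Set V) →
      (∀ Y : Finset V, C.IsClique (Y : Set V) → X ⊆ Y → Y = X) → X ∈ mc5 C := by
    intro X h5 hX hXm
    unfold mc5
    rw [mem_filter]
    exact ⟨mem_univ _, h5, hX, hXm⟩
  have hng : ∀ v, ng C v = nb C v := ng_eq C
  have hfin := h1 V C R hR hRm (h2 V C R hR hRm hdom ?_ ?_ hconC ?_ ?_ ?_)
  · have h5 := nul_hub hp (card_pos.1 (by omega)) hCc (cq_of_clique hR) hdom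
    omega
  · intro X hX hne
    convert int_le hp hCc (hmax5 X hX).1 (hmax5 X hX).2 hR hRm hne
  · intro v
    rw [hng]
    exact hdeg v
  · intro v hv
    rw [hggn v hv]
    have := ext3 hp C (v := v) (by have := hdeg v; omega)
    omega
  · intro v hv hg
    rw [hggn v hv] at hg
    have hcq := caseB hp (by norm_num) hCc (v := v) (by have := hdeg v; omega) (by omega)
    refine ⟨insert v (nb C v), ?_, mem_insert_self _ _, ?_⟩
    · apply hmem5
      · rw [card_insert_of_notMem (not_mem_nb C v)]
        have := hdeg v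
        omega
      · apply clique_of_cq
        intro x hx y hy hxy
        rcases mem_insert.1 hx with hx' | hx' <;> rcases mem_insert.1 hy with hy' | hy'
        · exact absurd (hx'.trans hy'.symm) hxy
        · rw [hx']
          exact mem_nb.1 hy'
        · rw [hy']
          exact (mem_nb.1 hx').symm
        · exact hcq x hx' y hy' hxy
      · intro Y hY hsub
        apply Subset.antisymm _ hsub
        intro y hy
        by_cases hyv : y = v
        · rw [hyv]
          exact mem_insert_self _ _
        · apply mem_insert_of_mem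
          rw [mem_nb]
          exact cq_of_clique hY v (hsub (mem_insert_self _ _)) y hy (Ne.symm hyv)
    · rw [hng]
      exact subset_insert _ _
  · intro v hv hg
    rw [hggn v hv] at hg
    obtain ⟨y, hy, hyc⟩ := tgn4 (ttwo timg tx2) V C p hp hCc v (by have := hdeg v; omega) (by omega)
      (fun y hy hi => k5_hub hp hR0 h hy hi)
    obtain ⟨X, hX, hsX, hXm⟩ := exists_max_clique (G := C) (X := insert v ((nb C v).erase y)) (by
      apply clique_of_cq
      intro x hx z hz hxz
      rcases mem_insert.1 hx with hx' | hx' <;> rcases mem_insert.1 hz with hz' | hz'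
      · exact absurd (hx'.trans hz'.symm) hxz
      · rw [hx']
        exact mem_nb.1 (mem_of_mem_erase hz')
      · rw [hz']
        exact (mem_nb.1 (mem_of_mem_erase hx')).symm
      · exact hyc x hx' z hz' hxz)
    refine ⟨X, hmem5 X ?_ hX hXm, hsX (mem_insert_self _ _), y, ?_⟩
    · have h5 := card_le_card hsX
      rw [card_insert_of_notMem (fun h => not_mem_nb C v (mem_of_mem_erase h)),
        card_erase_of_mem hy] at h5
      have := hdeg v
      omega
    · rw [hng]
      intro z hz
      by_cases hzy : z = y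
      · rw [hzy]
        exact mem_insert_self _ _
      · exact mem_insert_of_mem (hsX (mem_insert_of_mem (mem_erase.2 ⟨hzy, hz⟩)))

end Pool.Agent.N423.HB
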