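import Mathlib
import Pool.Agent.N423.HB.K7
import Pool.Agent.N423.HB.C1x
import Pool.Agent.N423.HB.C2d
import Pool.Agent.N423.HB.C3

/-!
# Four-connected graphs with a clique which dominates twice
-/

set_option autoImplicit false
set_option linter.unusedSectionVars false

namespace Pool.Agent.N423.HB

open Matrix Finset Pool.Agent.H283R2.DR Pool.Agent.H789R5 Pool.Agent.N423.DE Pool.Agent.N423.DC
  Pool.Agent.N423.DT

/-- `G` is not separated by fewer than four vertices -/
def Con4 {V : Type} (G : SimpleGraph V) : Prop :=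
  ∀ S A B : Finset V, (∀ v, v ∈ S ∨ v ∈ A ∨ v ∈ B) → A.Nonempty → B.Nonempty →
    Disjoint S A → Disjoint S B → Disjoint A B → (∀ a ∈ A, ∀ b ∈ B, ¬ G.Adj a b) → 4 ≤ S.card

theorem con4_of {V : Type} {G : SimpleGraph V} (h : KConnected 4 G) : Con4 G := by
  intro S A B hAB hA hB hSA hSB hd hno
  obtain ⟨a0, ha0⟩ := hA
  obtain ⟨b0, hb0⟩ := hB
  by_contra hcon
  have ha0' : a0 ∈ (S : Set V)ᶜ := fun h' => Finset.disjoint_left.1 hSA h' ha0
  have hb0' : b0 ∈ (S : Set V)ᶜ := fun h' => Finset.disjoint_left.1 hSB h' hb0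
  have h1 : ∀ x y : ((S : Set V)ᶜ : Set V), (G.induce (S : Set V)ᶜ).Reachable x y →
      (x : V) ∈ A → (y : V) ∈ A := by
    rintro x y ⟨w⟩
    induction w with
    | nil => exact id
    | @cons x y z hxy _ ih =>
      intro hx
      apply ih
      rcases hAB y with h' | h' | h'
      · exact absurd h' y.2
      · exact h'
      · exact absurd (show G.Adj (x : V) (y : V) from hxy) (hno _ hx _ h')
  have h2 := h1 ⟨a0, ha0'⟩ ⟨b0, hb0'⟩ ((h S (by omega)).preconnected _ _) ha0
  exact Finset.disjoint_left.1 hd h2 hb0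

/-- **Four-connected graphs with a clique which dominates twice are rigid.** -/
theorem four (h1 : S_C1x) (h2 : S_C2d) (h3 : S_C3) (V : Type) [Fintype V] (G : SimpleGraph V)
    (hV : 3 ≤ Fintype.card V) (hcon : Con4 G) (R0 : Finset V) (hR0 : R0.Nonempty)
    (h : LHub G R0) (hh : ∀ v, v ∉ R0 → ∃ r ∈ R0, ∃ r' ∈ R0, r ≠ r' ∧ Linked 3 G v r ∧
      Linked 3 G v r') : GenRigid 3 G := by
  classical
  obtain ⟨p, hp⟩ := exists_mg V 3
  rw [genRigid_iff hp hV, ← mo_cl G p]
  set C := cl G p with hC
  have hCc : Closed C p := closed_cl G p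
  have hGC : G ≤ C := le_cl G p
  have hconC : Con4 C := fun S A B h1 h2 h3 h4 h5 h6 h7 =>
    hcon S A B h1 h2 h3 h4 h5 h6 (fun a ha b hb hab => h7 a ha b hb (hGC hab))
  by_cases hcomp : ∀ a b, a ≠ b → C.Adj a b
  · have e : C = DE.cmp univ := by
      ext a b
      exact ⟨fun h => ⟨h.ne, mem_univ _, mem_univ _⟩, fun h => hcomp a b h.1⟩
    have h4 := mo_cmpR (R := (univ : Finset V)) (by rw [card_univ]; exact hV) hp
    rw [card_univ] at h4
    rw [e]
    omega
  push Not at hcomp
  obtain ⟨a, b, hab, hnab⟩ := hcomp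
  have hV9 : 6 ≤ Fintype.card V := by
    have h4 := hconC (univ \ {a, b}) {a} {b} (by
      intro v
      by_cases hva : v = a
      · right; left; rw [mem_singleton]; exact hva
      by_cases hvb : v = b
      · right; right; rw [mem_singleton]; exact hvb
      left
      simp [hva, hvb]) (singleton_nonempty _) (singleton_nonempty _)
      (by simp) (by simp) (by simpa using hab)
      (by
        intro x hx y hy
        rw [mem_singleton] at hx hy
        rw [hx, hy]
        exact hnab)
    rw [card_sdiff_of_subset (subset_univ _), card_pair hab, card_univ] at h4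
    omega
  have hdeg : ∀ v, 4 ≤ (nb C v).card := by
    intro v
    by_contra hc
    have hnv := not_mem_nb C v
    have hB : (insert v (nb C v))ᶜ.Nonempty := by
      rw [← card_pos, card_compl, card_insert_of_notMem hnv]
      omega
    have h4 := hconC (nb C v) {v} (insert v (nb C v))ᶜ (by
      intro w
      by_cases hw : w = v
      · right; left; rw [mem_singleton]; exact hw
      by_cases hw' : w ∈ nb C v
      · left; exact hw'
      right; right
      rw [mem_compl, mem_insert]
      push Not
      exact ⟨hw, hw'⟩) (singleton_nonempty _) hB (by simpa using hnv)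
      (by
        rw [disjoint_left]
        intro x hx hx'
        rw [mem_compl, mem_insert] at hx'
        exact hx' (Or.inr hx))
      (by
        rw [disjoint_left]
        intro x hx hx'
        rw [mem_singleton] at hx
        rw [mem_compl, mem_insert] at hx'
        exact hx' (Or.inl hx))
      (by
        intro x hx y hy hxy
        rw [mem_singleton] at hx
        subst hx
        rw [mem_compl, mem_insert] at hy
        exact hy (Or.inr (mem_nb.2 hxy)))
    omega
  -- the hub
  have hclq0 : Cq C R0 := fun x hx y hy hxy => ⟨hxy, imp_of_linked hp hxy (h.1 x hx y hy hxy)⟩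
  have hdom0 : ∀ v, v ∉ R0 → ∃ r ∈ R0, C.Adj v r := by
    intro v hv
    obtain ⟨r, hr, hvr⟩ := h.2 v hv
    have hne : v ≠ r := fun e => hv (e ▸ hr)
    exact ⟨r, hr, hne, imp_of_linked hp hne hvr⟩
  obtain ⟨R, hR, hR0R, hRm⟩ := exists_max_clique (clique_of_cq hclq0)
  have hdom : ∀ v, v ∉ R → ∃ r ∈ R, C.Adj v r := by
    intro v hv
    obtain ⟨r, hr, hvr⟩ := hdom0 v (fun h => hv (hR0R h))
    exact ⟨r, hR0R hr, hvr⟩
  have hR2 : 2 ≤ R.card := by
    by_contra hc
    obtain ⟨r, hr⟩ := hR0.mono hR0R
    obtain ⟨v, hv⟩ : ∃ v, v ≠ r := by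
      by_contra hno
      push Not at hno
      have : Fintype.card V ≤ 1 := Fintype.card_le_one_iff.2 fun a b => (hno a).trans (hno b).symm
      omega
    have hR1 : R = {r} := by
      rw [eq_comm]
      apply eq_of_subset_of_card_le (singleton_subset_iff.2 hr)
      rw [card_singleton]
      omega
    obtain ⟨r', hr', hvr⟩ := hdom v (by rw [hR1, mem_singleton]; exact hv)
    rw [hR1, mem_singleton] at hr'
    subst hr'
    have h4 := hRm {v, r'} (by
      apply clique_of_cq
      intro x hx y hy hxy
      rw [mem_insert, mem_singleton] at hx hy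
      rcases hx with hx | hx <;> rcases hy with hy | hy
      · exact absurd (hx.trans hy.symm) hxy
      · rw [hx, hy]
        exact hvr
      · rw [hx, hy]
        exact hvr.symm
      · exact absurd (hx.trans hy.symm) hxy) (by rw [hR1]; simp)
    have h5 := card_pair hv
    rw [h4] at h5
    omega
  have hggn : ∀ v, v ∉ R → gg C v = (mo (C.deleteIncidenceSet v) p : ℤ) - mo C p :=
    fun v hv => gg_eq h3 hp hCc hR2 (cq_of_clique hR) hdom hv
  have hmax5 : ∀ X : Finset V, X ∈ mc5 C → C.IsClique (X : Set V) ∧
      ∀ Y : Finset V, C.IsClique (Y : Set V) → X ⊆ Y → Y = X := by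
    intro X hX
    unfold mc5 at hX
    rw [mem_filter] at hX
    exact hX.2.2
  have hmem5 : ∀ X : Finset V, 5 ≤ X.card → C.IsClique (X : Set V) →
      (∀ Y : Finset V, C.IsClique (Y : Set V) → X ⊆ Y → Y = X) → X ∈ mc5 C := by
    intro X h5 hX hXm
    unfold mc5
    rw [mem_filter]
    exact ⟨mem_univ _, h5, hX, hXm⟩
  have hng : ∀ v, ng C v = nb C v := ng_eq C
  have hfin := h1 V C R hR hRm (h2 V C R hR hRm ?_ ?_ hconC ?_ ?_)
  · have h5 := nul_hub hp (card_pos.1 (by omega)) hCc (cq_of_clique hR) hdom
    omega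
  · intro v hv
    obtain ⟨r, hr, r', hr', hne, h6, h7⟩ := hh v (fun h => hv (hR0R h))
    have hvr : v ≠ r := fun e => hv (e ▸ hR0R hr)
    have hvr' : v ≠ r' := fun e => hv (e ▸ hR0R hr')
    have h8 : ({r, r'} : Finset V) ⊆ ng C v ∩ R := by
      intro x hx
      rw [mem_insert, mem_singleton] at hx
      rw [mem_inter, hng, mem_nb]
      rcases hx with rfl | rfl
      · exact ⟨⟨hvr, imp_of_linked hp hvr h6⟩, hR0R hr⟩
      · exact ⟨⟨hvr', imp_of_linked hp hvr' h7⟩, hR0R hr'⟩
    have h9 := card_le_card h8
    rw [card_pair hne] at h9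
    convert h9
  · intro X hX hne
    convert int_le hp hCc (hmax5 X hX).1 (hmax5 X hX).2 hR hRm hne
  · intro v hv
    rw [hggn v hv]
    have := ext3 hp C (v := v) (by have := hdeg v; omega)
    omega
  · intro v hv hg
    rw [hggn v hv] at hg
    have hcq := caseB hp (by norm_num) hCc (v := v) (by have := hdeg v; omega) (by omega)
    refine ⟨insert v (nb C v), ?_, mem_insert_self _ _, ?_⟩
    · apply hmem5
      · rw [card_insert_of_notMem (not_mem_nb C v)]
        have := hdeg v
        omega
      · apply clique_of_cq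
        intro x hx y hy hxy
        rcases mem_insert.1 hx with hx' | hx' <;> rcases mem_insert.1 hy with hy' | hy'
        · exact absurd (hx'.trans hy'.symm) hxy
        · rw [hx']
          exact mem_nb.1 hy'
        · rw [hy']
          exact (mem_nb.1 hx').symm
        · exact hcq x hx' y hy' hxy
      · intro Y hY hsub
        apply Subset.antisymm _ hsub
        intro y hy
        by_cases hyv : y = v
        · rw [hyv]
          exact mem_insert_self _ _
        · apply mem_insert_of_mem
          rw [mem_nb]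
          exact cq_of_clique hY v (hsub (mem_insert_self _ _)) y hy (Ne.symm hyv)
    · rw [hng]
      exact subset_insert _ _

end Pool.Agent.N423.HB
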