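import Mathlib
import Pool.Agent.N423.HB.K7
import Pool.Agent.N423.HB.C1x
import Pool.Agent.N423.HB.C2x
import Pool.Agent.N423.HB.C3

/-!
# Seven-connected graphs with a dominating clique: everything together
-/

set_option autoImplicit false

namespace Pool.Agent.N423.HB

open Pool.Agent.H283R2.DR Pool.Agent.H789R5 Pool.Agent.N423.DT

theorem sev (V : Type) [Fintype V] (G : SimpleGraph V) (hV : 3 ≤ Fintype.card V)
    (hcon : Con7 G) (R0 : Finset V) (hR0 : R0.Nonempty) (h : LHub G R0) : GenRigid 3 G :=
  seven c1x c2x c3 V G hV hcon R0 hR0 h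

end Pool.Agent.N423.HB
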